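import Pool.Agent.H503R3.FR.Stmts

/-! Proof of `H503R3.FR.TaskTC` (project H503-FR). -/

set_option autoImplicit false

open IsLocalRing MvPolynomial H503R3.FR

namespace Pool.Agent.H614R3.TC

/-- In characteristic `2`, the Frobenius power of a finitely generated ideal is contained in the
ideal generated by the powers of the generators. -/
theorem frobPower_span_le {B : Type*} [CommRing B] [CharP B 2] {n : ℕ} (y : Fin n → B) (e : ℕ) :
    frobPower (Ideal.span (Set.range y)) (2 ^ e) ≤
      Ideal.span (Set.range fun l => y l ^ 2 ^ e) := by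
  have : Fact (Nat.Prime 2) := ⟨Nat.prime_two⟩
  have : ExpChar B 2 := ExpChar.prime Nat.prime_two
  refine Ideal.span_le.2 ?_
  rintro _ ⟨a, ha, rfl⟩
  obtain ⟨c, rfl⟩ := (Ideal.mem_span_range_iff_exists_fun).1 ha
  show (∑ i, c i * y i) ^ 2 ^ e ∈ _
  rw [sum_pow_char_pow]
  refine Ideal.sum_mem _ fun i _ => ?_
  rw [mul_pow]
  exact Ideal.mul_mem_left _ _ (Ideal.subset_span ⟨i, rfl⟩)

/-- Clearing denominators in a tight closure relation in a localisation of a domain. -/
theorem clear {A : Type*} [CommRing A] [IsDomain A] [CharP A 2] (P : Ideal A) [P.IsPrime]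
    {n : ℕ} (x : Fin n → A) (z : A)
    (hz : MemTightClosure 2 (Ideal.span (Set.range fun l => algebraMap A
      (Localization.AtPrime P) (x l))) (algebraMap A (Localization.AtPrime P) z)) :
    ∃ c' : A, c' ≠ 0 ∧ ∃ e₀ : ℕ, ∀ e : ℕ, e₀ ≤ e → ∃ u : A, u ∉ P ∧
      u * (c' * z ^ 2 ^ e) ∈ Ideal.span (Set.range fun l => x l ^ 2 ^ e) := by
  obtain ⟨c, hc, e₀, he⟩ := hz
  have hinj : Function.Injective (algebraMap A (Localization.AtPrime P)) :=
    IsLocalization.injective _ P.primeCompl_le_nonZeroDivisors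
  have : IsDomain (Localization.AtPrime P) :=
    IsLocalization.isDomain_localization P.primeCompl_le_nonZeroDivisors
  have : CharP (Localization.AtPrime P) 2 := charP_of_injective_algebraMap hinj 2
  have hc0 : c ≠ 0 := by
    intro h
    refine hc ⊥ ?_ (by simp [h])
    rw [IsDomain.minimalPrimes_eq_singleton_bot]
    rfl
  obtain ⟨c', v, hcv⟩ := IsLocalization.exists_mk'_eq P.primeCompl c
  have hcv' : algebraMap A (Localization.AtPrime P) v * c =
      algebraMap A (Localization.AtPrime P) c' := by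
    rw [← hcv, mul_comm]
    exact IsLocalization.mk'_spec _ _ _
  have hc'0 : c' ≠ 0 := by
    intro h1
    rw [h1, map_zero] at hcv'
    rcases mul_eq_zero.1 hcv' with h2 | h2
    · have h3 : (v : A) = 0 := hinj (by rw [h2, map_zero])
      exact v.2 (by rw [h3]; exact P.zero_mem)
    · exact hc0 h2
  refine ⟨c', hc'0, e₀, fun e hee => ?_⟩
  have h1 := frobPower_span_le (fun l => algebraMap A (Localization.AtPrime P) (x l)) e
    (he e hee)
  have h2 : algebraMap A (Localization.AtPrime P) (c' * z ^ 2 ^ e) ∈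
      (Ideal.span (Set.range fun l => x l ^ 2 ^ e)).map
        (algebraMap A (Localization.AtPrime P)) := by
    rw [Ideal.map_span, ← Set.range_comp]
    have h3 := Ideal.mul_mem_left _ (algebraMap A (Localization.AtPrime P) v) h1
    rw [← mul_assoc, hcv', ← map_pow, ← map_mul] at h3
    have hfun : (⇑(algebraMap A (Localization.AtPrime P)) ∘ fun l => x l ^ 2 ^ e) =
        fun l => algebraMap A (Localization.AtPrime P) (x l) ^ 2 ^ e := by
      funext l
      exact map_pow _ _ _
    rw [hfun]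
    exact h3
  obtain ⟨u, hu, hmem⟩ :=
    (IsLocalization.algebraMap_mem_map_algebraMap_iff P.primeCompl _ _ _).1 h2
  exact ⟨u, hu, hmem⟩

theorem taskTC : TaskTC := by
  intro hSFR k _ _ _ P _ n x z hz
  have : CharP (R k) 2 :=
    charP_of_injective_algebraMap (algebraMap k (R k)).injective 2
  obtain ⟨c', hc', e₀, he⟩ := clear P x z hz
  have hc'0 : (c' : D k) ≠ 0 := fun h => hc' (Subtype.ext h)
  obtain ⟨e₁, he₁⟩ := hSFR k (c' : D k) hc'0
  obtain ⟨φ, hφ, hφ1⟩ := he₁ (max e₀ e₁) (le_max_right _ _)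
  obtain ⟨u, hu, hmem⟩ := he (max e₀ e₁) (le_max_left _ _)
  generalize max e₀ e₁ = e at hφ hmem
  refine ⟨u, hu, ?_⟩
  obtain ⟨a, ha⟩ := (Ideal.mem_span_range_iff_exists_fun).1 hmem
  have ha' : ∑ i, (a i : D k) * (x i : D k) ^ 2 ^ e =
      (u : D k) * ((c' : D k) * (z : D k) ^ 2 ^ e) := by
    have := congrArg (fun t : R k => (t : D k)) ha
    simpa using this
  have hq : 2 ^ e = (2 ^ e - 1) + 1 := by
    have := Nat.one_le_two_pow (n := e)
    omega
  have h4 : ((u : D k) * z) ^ 2 ^ e * c' =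
      ∑ i, (x i : D k) ^ 2 ^ e * ((u : D k) ^ (2 ^ e - 1) * a i) := by
    have h5 : ((u : D k)) ^ 2 ^ e = (u : D k) ^ (2 ^ e - 1) * u := by
      conv_lhs => rw [hq, pow_succ]
    calc ((u : D k) * z) ^ 2 ^ e * c'
        = (u : D k) ^ (2 ^ e - 1) * ((u : D k) * ((c' : D k) * (z : D k) ^ 2 ^ e)) := by
          rw [mul_pow, h5]; ring
      _ = _ := by
          rw [← ha', Finset.mul_sum]
          refine Finset.sum_congr rfl fun i _ => by ring
  have h6 : (u : D k) * z = ∑ i, (x i : D k) * φ ((u : D k) ^ (2 ^ e - 1) * a i) := by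
    have h7 := congrArg φ h4
    rw [hφ, hφ1, mul_one, map_sum] at h7
    rw [h7]
    exact Finset.sum_congr rfl fun i _ => hφ _ _
  rw [h6]
  refine Ideal.sum_mem _ fun i _ => ?_
  exact Ideal.mul_mem_right _ _ (Ideal.subset_span ⟨i, rfl⟩)

end Pool.Agent.H614R3.TC
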