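import Mathlib

/-!
Definitions: computably enumerable sets, enumeration reducibility, represented spaces,
quasi-minimality (problem `MP_4f977f_lc`).
-/

namespace Pool.Agent.H614R3.Golomb

/-- The finite set with canonical index `e` (the positions of the binary digits `1` of `e`). -/
def Dfin (e : ℕ) : Set ℕ := {i | e.testBit i = true}

/-- `A` is computably enumerable. -/
def CE (A : Set ℕ) : Prop := REPred fun n : ℕ => n ∈ A

/-- The enumeration operator given by `Φ`. -/
def EnumOp (Φ B : Set ℕ) : Set ℕ := {n | ∃ e, Nat.pair n e ∈ Φ ∧ Dfin e ⊆ B}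

/-- Enumeration reducibility `A ≤ₑ B`. -/
def EnumRed (A B : Set ℕ) : Prop := ∃ Φ : Set ℕ, CE Φ ∧ A = EnumOp Φ B

/-- `β` enumerates a subbasis of the topology. -/
def IsRepresentation {X : Type*} [t : TopologicalSpace X] (β : ℕ → Set X) : Prop :=
  t = TopologicalSpace.generateFrom (Set.range β)

/-- The neighbourhood set of a point. -/
def Nbase {X : Type*} (β : ℕ → Set X) (x : X) : Set ℕ := {e | x ∈ β e}

/-- `A` has `𝒴`-quasi-minimal enumeration degree, where `𝒴 = (Y, γ)`: `A` is not c.e. and every
point of `Y` whose neighbourhood set is enumeration reducible to `A` has a c.e. neighbourhood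
set. -/
def QuasiMinimal {Y : Type*} (γ : ℕ → Set Y) (A : Set ℕ) : Prop :=
  ¬ CE A ∧ ∀ y : Y, EnumRed (Nbase γ y) A → CE (Nbase γ y)

end Pool.Agent.H614R3.Golomb
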