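import Pool.Agent.H614R3.GolombPower

namespace Pool.Agent.H614R3.Golomb

open Set Topology Encodable

/-- value of the point coded by the list. -/
def ptOf (l : List ℕ) : GP := fun j => l.getD j 0

theorem primrec_pow : Primrec₂ fun a b : ℕ => a ^ b := by
  have h := Nat.Primrec.pow
  exact (Primrec.nat_iff.2 h |>.comp (Primrec₂.natPair.comp Primrec.fst Primrec.snd)).of_eq
    (fun p => by simp [Nat.unpaired])

theorem primrec_testBit : Primrec₂ fun e i : ℕ => e.testBit i := by
  have h : Primrec₂ fun e i : ℕ => decide (e / 2 ^ i % 2 = 1) := by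
    have h1 : Primrec₂ fun e i : ℕ => e / 2 ^ i % 2 :=
      (Primrec.nat_mod.comp (Primrec.nat_div.comp Primrec.fst
        (primrec_pow.comp (Primrec.const 2) Primrec.snd)) (Primrec.const 2))
    have h2 := (PrimrecRel.comp Primrec.eq h1 (Primrec.const 1 : Primrec fun _ : ℕ × ℕ => 1))
    exact PrimrecPred.decide h2
  exact h.of_eq fun e i => by rw [Nat.testBit_eq_decide_div_mod_eq]

theorem primrec_R : PrimrecRel R := by
  unfold R
  have hm : Primrec fun p : ℕ × ℕ => p.1.unpair.2.unpair.2 + 1 :=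
    Primrec.succ.comp (Primrec.snd.comp (Primrec.unpair.comp
      (Primrec.snd.comp (Primrec.unpair.comp Primrec.fst))))
  have ha : Primrec fun p : ℕ × ℕ => p.1.unpair.2.unpair.1 :=
    (Primrec.fst.comp (Primrec.unpair.comp
      (Primrec.snd.comp (Primrec.unpair.comp Primrec.fst))))
  have hu : Primrec fun p : ℕ × ℕ => p.1.unpair.1 :=
    Primrec.fst.comp (Primrec.unpair.comp Primrec.fst)
  have h1 : PrimrecPred fun p : ℕ × ℕ =>
      (p.1.unpair.1 * p.1.unpair.2.unpair.1) % (p.1.unpair.2.unpair.2 + 1) =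
        1 % (p.1.unpair.2.unpair.2 + 1) :=
    PrimrecRel.comp Primrec.eq (Primrec.nat_mod.comp (Primrec.nat_mul.comp hu ha) hm)
      (Primrec.nat_mod.comp (Primrec.const 1) hm)
  have h2 : PrimrecPred fun p : ℕ × ℕ =>
      (p.2 + 1) % (p.1.unpair.2.unpair.2 + 1) =
        p.1.unpair.2.unpair.1 % (p.1.unpair.2.unpair.2 + 1) :=
    PrimrecRel.comp Primrec.eq (Primrec.nat_mod.comp (Primrec.succ.comp Primrec.snd) hm)
      (Primrec.nat_mod.comp ha hm)
  exact h1.and h2

/-- decidable form of `ptOf l ∈ Box gβ e`. -/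
def chk (e : ℕ) (l : List ℕ) : Prop :=
  ∀ i < e, e.testBit i = true → R i.unpair.2 (l.getD i.unpair.1 0)

instance (e : ℕ) (l : List ℕ) : Decidable (chk e l) := by unfold chk; infer_instance

theorem chk_iff (e : ℕ) (l : List ℕ) : chk e l ↔ ptOf l ∈ Box gβ e := by
  rw [mem_Box_iff]
  exact ⟨fun h i hi => h i (lt_of_mem_Dfin hi) hi, fun h i _ hi => h i hi⟩

theorem primrec_chk : PrimrecRel chk := by
  have hbase : PrimrecRel fun (i : ℕ) (q : ℕ × List ℕ) =>
      ¬ (q.1.testBit i = true) ∨ R i.unpair.2 (q.2.getD i.unpair.1 0) := by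
    have h1 : PrimrecPred fun p : ℕ × (ℕ × List ℕ) => p.2.1.testBit p.1 = true :=
      PrimrecRel.comp Primrec.eq
        (primrec_testBit.comp (Primrec.fst.comp Primrec.snd) Primrec.fst) (Primrec.const true)
    have h2 : Primrec fun p : ℕ × (ℕ × List ℕ) => p.2.2.getD p.1.unpair.1 0 :=
      (Primrec.list_getD 0).comp (Primrec.snd.comp Primrec.snd)
        (Primrec.fst.comp (Primrec.unpair.comp Primrec.fst))
    have h3 : PrimrecPred fun p : ℕ × (ℕ × List ℕ) =>
        R p.1.unpair.2 (p.2.2.getD p.1.unpair.1 0) :=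
      PrimrecRel.comp primrec_R (Primrec.snd.comp (Primrec.unpair.comp Primrec.fst)) h2
    exact (h1.not).or h3
  have hb2 := hbase.forall_mem_list
  have : PrimrecPred fun p : ℕ × List ℕ =>
      ∀ i ∈ List.range p.1, ¬ (p.1.testBit i = true) ∨ R i.unpair.2 (p.2.getD i.unpair.1 0) :=
    PrimrecRel.comp hb2 (Primrec.list_range.comp Primrec.fst)
      (Primrec.fst.pair Primrec.snd)
  refine PrimrecPred.of_eq this ?_
  rintro ⟨e, l⟩
  simp only [chk, List.mem_range]
  constructor
  · intro h i hi hb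
    rcases h i hi with h | h
    · exact absurd hb h
    · exact h
  · intro h i hi
    by_cases hb : e.testBit i = true
    · exact Or.inr (h i hi hb)
    · exact Or.inl hb

/-- Existential quantification over a computable Boolean relation gives a c.e. set. -/
theorem CE_of_exists {Q : ℕ → ℕ → Bool} (hQ : Computable₂ Q) : CE {n | ∃ m, Q n m = true} := by
  have h : Partrec fun n : ℕ => Nat.rfind fun m => Part.some (Q n m) :=
    Partrec.rfind hQ.partrec₂
  refine REPred.of_eq h.dom_re ?_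
  intro n
  refine (Nat.rfind_dom (p := fun m => Part.some (Q n m))).trans ?_
  constructor
  · rintro ⟨m, hm, _⟩
    exact ⟨m, (Part.mem_some_iff.1 hm).symm⟩
  · rintro ⟨m, hm⟩
    exact ⟨m, Part.mem_some_iff.2 hm.symm, fun _ => trivial⟩

/-- A c.e. set has a code. -/
theorem CE.exists_code {Φ : Set ℕ} (h : CE Φ) :
    ∃ c : Nat.Partrec.Code, ∀ n, n ∈ Φ ↔ ∃ t, (Nat.Partrec.Code.evaln t c n).isSome = true := by
  have h1 : Partrec fun n : ℕ => Part.assert (n ∈ Φ) fun _ => Part.some () := h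
  have h2 : Nat.Partrec fun n : ℕ =>
      (Part.assert (n ∈ Φ) fun _ => Part.some ()).map fun _ => (0 : ℕ) :=
    Partrec.nat_iff.1 (h1.map (Computable.const 0).to₂)
  obtain ⟨c, hc⟩ := Nat.Partrec.Code.exists_code.1 h2
  refine ⟨c, fun n => ?_⟩
  have h3 : n ∈ Φ ↔ (c.eval n).Dom := by
    rw [hc]; simp [Part.dom_iff_mem]
  rw [h3, Part.dom_iff_mem]
  constructor
  · rintro ⟨y, hy⟩
    obtain ⟨k, hk⟩ := Nat.Partrec.Code.evaln_complete.1 hy
    exact ⟨k, by rw [Option.mem_def.1 hk]; rfl⟩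
  · rintro ⟨t, ht⟩
    obtain ⟨y, hy⟩ := Option.isSome_iff_exists.1 ht
    exact ⟨y, Nat.Partrec.Code.evaln_complete.2 ⟨t, hy⟩⟩

theorem countable_CE : Countable {Φ : Set ℕ // CE Φ} := by
  have : ∀ Φ : {Φ : Set ℕ // CE Φ}, ∃ c : Nat.Partrec.Code,
      ∀ n, n ∈ Φ.1 ↔ ∃ t, (Nat.Partrec.Code.evaln t c n).isSome = true := fun Φ => Φ.2.exists_code
  choose f hf using this
  refine Function.Injective.countable (f := f) ?_
  intro Φ Ψ h
  apply Subtype.ext
  ext n
  rw [hf Φ, hf Ψ, h]

/-- The points of a nonempty trace of a box on a cylinder may be taken finitely supported. -/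
theorem trace_iff (s : GP) (k e : ℕ) :
    (Box gβ e ∩ Cyl s k).Nonempty ↔
      ∃ l : List ℕ, chk e ((List.range k).map (fun j => s j) ++ l) := by
  constructor
  · rintro ⟨x, hx, hxs⟩
    refine ⟨(List.range e).map fun j => x (k + j), ?_⟩
    rw [chk_iff]
    refine Box_congr (z := x) ?_ hx
    intro j hj
    unfold ptOf
    rcases Nat.lt_or_ge j k with h | h
    · rw [List.getD_eq_getElem?_getD, List.getElem?_append_left (by simpa using h)]
      simpa [h] using hxs j h
    · rw [List.getD_eq_getElem?_getD, List.getElem?_append_right (by simpa using h)]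
      have : j - k < e := by omega
      simp [this, h]
  · rintro ⟨l, hl⟩
    rw [chk_iff] at hl
    refine ⟨_, hl, ?_⟩
    intro j hj
    unfold ptOf
    rw [List.getD_eq_getElem?_getD, List.getElem?_append_left (by simpa using hj)]
    simp [hj]

/-- The set enumerated from the overt information of a cylinder is c.e. -/
theorem CE_trace {Φ : Set ℕ} (hΦ : CE Φ) (s : GP) (k : ℕ) :
    CE {n | ∃ e, Nat.pair n e ∈ Φ ∧ (Box gβ e ∩ Cyl s k).Nonempty} := by
  obtain ⟨c, hc⟩ := hΦ.exists_code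
  let l0 : List ℕ := (List.range k).map (fun j => s j)
  let q : ℕ → ℕ × ℕ × List ℕ → Bool := fun n m =>
    (Nat.Partrec.Code.evaln m.1 c (Nat.pair n m.2.1)).isSome && decide (chk m.2.1 (l0 ++ m.2.2))
  have hq : Primrec₂ q := by
    have h1 : Primrec fun p : ℕ × (ℕ × ℕ × List ℕ) =>
        (Nat.Partrec.Code.evaln p.2.1 c (Nat.pair p.1 p.2.2.1)).isSome :=
      Primrec.option_isSome.comp (Nat.Partrec.Code.primrec_evaln.comp
        (((Primrec.fst.comp Primrec.snd).pair (Primrec.const c)).pair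
          (Primrec₂.natPair.comp Primrec.fst (Primrec.fst.comp (Primrec.snd.comp Primrec.snd)))))
    have h2 : Primrec fun p : ℕ × (ℕ × ℕ × List ℕ) => decide (chk p.2.2.1 (l0 ++ p.2.2.2)) :=
      PrimrecPred.decide (PrimrecRel.comp primrec_chk
        (Primrec.fst.comp (Primrec.snd.comp Primrec.snd))
        (Primrec.list_append.comp (Primrec.const l0)
          (Primrec.snd.comp (Primrec.snd.comp Primrec.snd))))
    exact Primrec.and.comp h1 h2
  let Q : ℕ → ℕ → Bool := fun n m =>
    ((decode (α := ℕ × ℕ × List ℕ) m).map (q n)).getD false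
  have hQ : Primrec₂ Q := by
    have h1 : Primrec fun p : ℕ × ℕ => decode (α := ℕ × ℕ × List ℕ) p.2 :=
      Primrec.decode.comp Primrec.snd
    have h2 : Primrec fun p : ℕ × ℕ => (decode (α := ℕ × ℕ × List ℕ) p.2).map (q p.1) :=
      Primrec.option_map h1 (hq.comp (Primrec.fst.comp Primrec.fst) Primrec.snd)
    exact Primrec.option_getD.comp h2 (Primrec.const false)
  have hfin := CE_of_exists (Q := Q) hQ.to_comp
  refine REPred.of_eq hfin ?_
  intro n
  constructor
  · rintro ⟨m, hm⟩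
    simp only [Q] at hm
    cases hd : decode (α := ℕ × ℕ × List ℕ) m with
    | none => rw [hd] at hm; simp at hm
    | some v =>
      rw [hd] at hm
      simp only [Option.map_some, Option.getD_some, q, Bool.and_eq_true, decide_eq_true_eq] at hm
      exact ⟨v.2.1, (hc _).2 ⟨_, hm.1⟩, (trace_iff s k _).2 ⟨_, hm.2⟩⟩
  · rintro ⟨e, he, hne⟩
    obtain ⟨t, ht⟩ := (hc _).1 he
    obtain ⟨l, hl⟩ := (trace_iff s k e).1 hne
    refine ⟨encode ((t, e, l) : ℕ × ℕ × List ℕ), ?_⟩
    simp only [Q, encodek, Option.map_some, Option.getD_some, q, Bool.and_eq_true,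
      decide_eq_true_eq]
    exact ⟨ht, hl⟩

end Pool.Agent.H614R3.Golomb
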