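import Pool.Agent.H614R3.EnumDefs

/-!
Enumeration reducibility, represented spaces, and the countable power of the Golomb space.
Helper file for `MP_4f977f_lc`.
-/

namespace Pool.Agent.H614R3.Golomb

open Set Topology Encodable

/-- The basic open set with index `e`. -/
def Box {X : Type*} (β : ℕ → Set X) (e : ℕ) : Set X := {x | Dfin e ⊆ Nbase β x}

theorem mem_Dfin {e i : ℕ} : i ∈ Dfin e ↔ e.testBit i = true := Iff.rfl

theorem lt_of_mem_Dfin {e i : ℕ} (h : i ∈ Dfin e) : i < e := by
  have h1 : 2 ^ i ≤ e := Nat.ge_two_pow_of_testBit h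
  exact lt_of_lt_of_le (Nat.lt_two_pow_self) h1

theorem Dfin_or (a b : ℕ) : Dfin (a ||| b) = Dfin a ∪ Dfin b := by
  ext i; simp [Dfin, Nat.testBit_or]

theorem Dfin_zero : Dfin 0 = ∅ := by ext i; simp [Dfin]

theorem Dfin_single (i : ℕ) : Dfin (2 ^ i) = {i} := by
  ext j; simp only [Dfin, Nat.testBit_two_pow]; simp [eq_comm]

theorem exists_Dfin (s : Finset ℕ) : ∃ e, Dfin e = (s : Set ℕ) := by
  classical
  induction s using Finset.induction_on with
  | empty => exact ⟨0, by simp [Dfin_zero]⟩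
  | insert a s _ ih =>
    obtain ⟨e, he⟩ := ih
    exact ⟨2 ^ a ||| e, by rw [Dfin_or, Dfin_single, he, Finset.coe_insert, Set.insert_eq]⟩

theorem Box_or {X : Type*} (β : ℕ → Set X) (a b : ℕ) : Box β (a ||| b) = Box β a ∩ Box β b := by
  ext x; simp [Box, Dfin_or]

theorem Box_zero {X : Type*} (β : ℕ → Set X) : Box β 0 = Set.univ := by
  ext x; simp [Box, Dfin_zero]

/-- Basic open sets form a basis. -/
theorem exists_Box {X : Type*} [t : TopologicalSpace X] {β : ℕ → Set X}
    (hβ : IsRepresentation β) {x : X} {U : Set X} (hU : IsOpen U) (hx : x ∈ U) :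
    ∃ e, x ∈ Box β e ∧ Box β e ⊆ U := by
  classical
  have hb := TopologicalSpace.isTopologicalBasis_of_subbasis hβ
  obtain ⟨v, hv, hxv, hvU⟩ := hb.exists_subset_of_mem_open hx hU
  obtain ⟨f, ⟨hf, hfs⟩, rfl⟩ := hv
  have : ∀ W ∈ f, ∃ i, β i = W := fun W hW => hfs hW
  choose! g hg using this
  obtain ⟨e, he⟩ := exists_Dfin (hf.toFinset.image g)
  refine ⟨e, ?_, ?_⟩
  · intro i hi
    rw [he] at hi
    simp only [Finset.coe_image, Set.Finite.coe_toFinset, Set.mem_image] at hi
    obtain ⟨W, hW, rfl⟩ := hi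
    show x ∈ β (g W)
    rw [hg W hW]
    exact hxv W hW
  · intro z hz
    apply hvU
    intro W hW
    have : g W ∈ Dfin e := by
      rw [he]
      simp only [Finset.coe_image, Set.Finite.coe_toFinset, Set.mem_image]
      exact ⟨W, hW, rfl⟩
    have h2 : z ∈ β (g W) := hz this
    rwa [hg W hW] at h2

theorem isOpen_Box {X : Type*} [t : TopologicalSpace X] {β : ℕ → Set X}
    (hβ : IsRepresentation β) (e : ℕ) : IsOpen (Box β e) := by
  have : Box β e = ⋂ i ∈ Dfin e, β i := by
    ext x
    simp only [Box, Nbase, Set.mem_ofPred_eq, Set.subset_def, Set.mem_iInter]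
  rw [this]
  apply Set.Finite.isOpen_biInter
  · exact (Set.finite_lt_nat e).subset fun i hi => lt_of_mem_Dfin hi
  · intro i _
    rw [hβ]
    exact TopologicalSpace.isOpen_generateFrom_of_mem ⟨i, rfl⟩

/-! ### The space -/

/-- Points of the countable power of the Golomb space; the natural number `n` stands for the
positive integer `n + 1`. -/
def GP : Type := ℕ → ℕ

/-- `R ⟨u, ⟨a, b⟩⟩ x`: the class of `a` is invertible modulo `b + 1` with inverse `u`, and
`x + 1` is congruent to `a` modulo `b + 1`. -/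
def R (c x : ℕ) : Prop :=
  (c.unpair.1 * c.unpair.2.unpair.1) % (c.unpair.2.unpair.2 + 1) =
      1 % (c.unpair.2.unpair.2 + 1) ∧
    (x + 1) % (c.unpair.2.unpair.2 + 1) = c.unpair.2.unpair.1 % (c.unpair.2.unpair.2 + 1)

instance (c x : ℕ) : Decidable (R c x) := by unfold R; infer_instance

/-- The subbasis of the countable power of the Golomb space. -/
def gβ (c : ℕ) : Set GP := {x | R c.unpair.2 (x c.unpair.1)}

instance : TopologicalSpace GP := TopologicalSpace.generateFrom (Set.range gβ)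

theorem gβ_rep : IsRepresentation gβ := rfl

/-- modulus of the code `i`. -/
def md (i : ℕ) : ℕ := i.unpair.2.unpair.2.unpair.2 + 1

theorem coprime_of_inv {a u m : ℕ} (h : (u * a) % m = 1 % m) : Nat.Coprime a m := by
  have h1 : u * a ≡ 1 [MOD m] := h
  have h2 : Nat.Coprime (u * a) m := by
    have := h1.gcd_eq
    rw [Nat.gcd_one_left] at this
    exact this
  exact Nat.Coprime.coprime_mul_left h2

theorem exists_inv {a m : ℕ} (h : Nat.Coprime a m) : ∃ u, (u * a) % m = 1 % m := by
  rcases Nat.lt_or_ge 1 m with hm | hm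
  · obtain ⟨u, hu⟩ := Nat.exists_mul_mod_eq_one_of_coprime h hm
    refine ⟨u, ?_⟩
    rw [Nat.mul_comm, hu.2, Nat.mod_eq_of_lt hm]
  · interval_cases m
    · have ha : a = 1 := by simpa using h
      exact ⟨1, by simp [ha]⟩
    · exact ⟨0, by simp [Nat.mod_one]⟩

/-- separation of numbers -/
theorem exists_sep {x y : ℕ} (h : x ≠ y) :
    ∃ c d, R c x ∧ R d y ∧ ∀ z, ¬ (R c z ∧ R d z) := by
  set m := (x + 1) * (y + 1) + 1 with hm
  have hcx : Nat.Coprime (x + 1) m := by
    rw [hm]; simp
  have hcy : Nat.Coprime (y + 1) m := by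
    rw [hm, Nat.mul_comm]; simp
  obtain ⟨u, hu⟩ := exists_inv hcx
  obtain ⟨v, hv⟩ := exists_inv hcy
  refine ⟨Nat.pair u (Nat.pair (x + 1) ((x + 1) * (y + 1))),
    Nat.pair v (Nat.pair (y + 1) ((x + 1) * (y + 1))), ?_, ?_, ?_⟩
  · simp only [R, Nat.unpair_pair]
    exact ⟨hu, trivial⟩
  · simp only [R, Nat.unpair_pair]
    exact ⟨hv, trivial⟩
  · intro z
    simp only [R, Nat.unpair_pair]
    rintro ⟨⟨_, h1⟩, ⟨_, h2⟩⟩
    have h3 : (x + 1) % ((x + 1) * (y + 1) + 1) = (y + 1) % ((x + 1) * (y + 1) + 1) := by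
      rw [← h1, ← h2]
    have hx : x + 1 < (x + 1) * (y + 1) + 1 := by nlinarith [Nat.zero_le x, Nat.zero_le y]
    have hy : y + 1 < (x + 1) * (y + 1) + 1 := by nlinarith [Nat.zero_le x, Nat.zero_le y]
    rw [Nat.mod_eq_of_lt hx, Nat.mod_eq_of_lt hy] at h3
    omega

instance : T2Space GP := by
  refine ⟨fun x y hxy => ?_⟩
  have : ∃ j, x j ≠ y j := by
    by_contra hcon
    push Not at hcon
    exact hxy (funext hcon)
  obtain ⟨j, hj⟩ := this
  obtain ⟨c, d, hc, hd, hcd⟩ := exists_sep hj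
  refine ⟨gβ (Nat.pair j c), gβ (Nat.pair j d),
    TopologicalSpace.isOpen_generateFrom_of_mem ⟨_, rfl⟩,
    TopologicalSpace.isOpen_generateFrom_of_mem ⟨_, rfl⟩, ?_, ?_, ?_⟩
  · simpa [gβ] using hc
  · simpa [gβ] using hd
  · rw [Set.disjoint_left]
    intro z hz1 hz2
    simp only [gβ, Nat.unpair_pair, Set.mem_ofPred_eq] at hz1 hz2
    exact hcd _ ⟨hz1, hz2⟩

/-- points agreeing with `s` below `k` -/
def Cyl (s : GP) (k : ℕ) : Set GP := {z | ∀ j < k, z j = s j}

theorem mem_Box_iff {e : ℕ} {z : GP} :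
    z ∈ Box gβ e ↔ ∀ i, i ∈ Dfin e → R i.unpair.2 (z i.unpair.1) := Iff.rfl

/-- Box membership depends only on coordinates below `e`. -/
theorem Box_congr {e : ℕ} {z w : GP} (h : ∀ j < e, z j = w j) (hz : z ∈ Box gβ e) :
    w ∈ Box gβ e := by
  rw [mem_Box_iff] at hz ⊢
  intro i hi
  have h1 : i.unpair.1 < e := lt_of_le_of_lt (Nat.unpair_left_le i) (lt_of_mem_Dfin hi)
  rw [← h _ h1]
  exact hz i hi

theorem R_congr {c x y m : ℕ} (hm : c.unpair.2.unpair.2 + 1 ∣ m) (h : x + 1 ≡ y + 1 [MOD m])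
    (hx : R c x) : R c y := by
  refine ⟨hx.1, ?_⟩
  have h2 : x + 1 ≡ y + 1 [MOD (c.unpair.2.unpair.2 + 1)] := h.of_dvd hm
  exact h2.symm.trans hx.2

/-- The crucial intersection property: if the coordinates `j ≥ k` of `z` below `m` are all
multiples of all the moduli occurring in `e₁`, then every basic neighbourhood of `z` meets
`Box e₁` inside the cylinder. -/
theorem inter_nonempty {s : GP} {k m e₁ e M : ℕ} {x z : GP}
    (hx : x ∈ Box gβ e₁) (hxs : x ∈ Cyl s k) (he1 : e₁ ≤ m) 
    (hM : ∀ i ∈ Dfin e₁, md i ∣ M)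
    (hzs : z ∈ Cyl s k) (hzM : ∀ j, k ≤ j → j < m → z j + 1 = M) (hz : z ∈ Box gβ e) :
    (Box gβ (e ||| e₁) ∩ Cyl s k).Nonempty := by
  classical
  -- coordinatewise choice
  have key : ∀ j, ∃ w : ℕ, (j < k → w = s j) ∧
      (∀ i ∈ Dfin e, i.unpair.1 = j → R i.unpair.2 w) ∧
      (∀ i ∈ Dfin e₁, i.unpair.1 = j → R i.unpair.2 w) := by
    intro j
    rcases Nat.lt_or_ge j k with hj | hj
    · refine ⟨s j, fun _ => rfl, ?_, ?_⟩
      · rintro i hi rfl
        rw [← hzs _ hj]
        exact hz hi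
      · rintro i hi rfl
        rw [← hxs _ hj]
        exact hx hi
    · rcases Nat.lt_or_ge j m with hjm | hjm
      · -- the CRT case
        have hMpos : 0 < M := by rw [← hzM j hj hjm]; omega
        set F := (Finset.range e).filter (fun i => e.testBit i = true ∧ i.unpair.1 = j) with hF
        set L := ∏ i ∈ F, md i with hL
        have hco : Nat.Coprime M L := by
          rw [hL]
          apply Nat.Coprime.prod_right
          intro i hi
          rw [hF, Finset.mem_filter] at hi
          obtain ⟨_, hi1, hi2⟩ := hi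
          have hR : R i.unpair.2 (z i.unpair.1) := hz hi1
          rw [hi2] at hR
          have h1 := coprime_of_inv hR.1
          have h2 : z j + 1 ≡ i.unpair.2.unpair.2.unpair.1 [MOD (md i)] := hR.2
          rw [hzM j hj hjm] at h2
          have h3 := h2.gcd_eq
          rw [Nat.Coprime, h3]
          exact h1
        obtain ⟨t, ht1, ht2⟩ := Nat.chineseRemainder hco (x j + 1) (z j + 1)
        have hLpos : 0 < L := Finset.prod_pos fun i _ => Nat.succ_pos _
        have hML : 0 < M * L := Nat.mul_pos hMpos hLpos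
        obtain ⟨w, hw⟩ : ∃ w, w + 1 = t + M * L := ⟨t + M * L - 1, by omega⟩
        have hw1 : x j + 1 ≡ w + 1 [MOD M] := by
          rw [hw]
          refine ht1.symm.trans ?_
          have : t + 0 ≡ t + M * L [MOD M] :=
            Nat.ModEq.add_left _ ((Nat.modEq_zero_iff_dvd.2 (Dvd.intro _ rfl)).symm)
          simpa using this
        have hw2 : z j + 1 ≡ w + 1 [MOD L] := by
          rw [hw]
          refine ht2.symm.trans ?_
          have : t + 0 ≡ t + M * L [MOD L] :=
            Nat.ModEq.add_left _ ((Nat.modEq_zero_iff_dvd.2 (Dvd.intro_left _ rfl)).symm)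
          simpa using this
        refine ⟨w, fun h => absurd h (by omega), ?_, ?_⟩
        · rintro i hi hij
          have hiF : i ∈ F := by
            rw [hF, Finset.mem_filter]
            exact ⟨Finset.mem_range.2 (lt_of_mem_Dfin hi), hi, hij⟩
          refine R_congr (m := L) (Finset.dvd_prod_of_mem md hiF) hw2 ?_
          rw [← hij]
          exact hz hi
        · rintro i hi hij
          refine R_congr (m := M) (hM i hi) hw1 ?_
          rw [← hij]
          exact hx hi
      · refine ⟨z j, fun h => absurd h (by omega), ?_, ?_⟩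
        · rintro i hi rfl
          exact hz hi
        · rintro i hi rfl
          exfalso
          have h1 : i.unpair.1 < e₁ := lt_of_le_of_lt (Nat.unpair_left_le i) (lt_of_mem_Dfin hi)
          omega
  choose w hw1 hw2 hw3 using key
  refine ⟨w, ?_, fun j hj => hw1 j hj⟩
  intro i hi
  rw [Dfin_or] at hi
  rcases hi with hi | hi
  · exact hw2 _ i hi rfl
  · exact hw3 _ i hi rfl

end Pool.Agent.H614R3.Golomb
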