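import Pool.Agent.H614R3.GolombCE

namespace Pool.Agent.H614R3.Golomb

open Set Topology Encodable

theorem mem_EnumOp_iff {Φ : Set ℕ} {z : GP} {n : ℕ} :
    n ∈ EnumOp Φ (Nbase gβ z) ↔ ∃ e, Nat.pair n e ∈ Φ ∧ z ∈ Box gβ e := Iff.rfl

/-- continuity of enumeration operators -/
theorem EnumOp_cont {Φ : Set ℕ} {z : GP} {d : ℕ} (h : Dfin d ⊆ EnumOp Φ (Nbase gβ z)) :
    ∃ e, z ∈ Box gβ e ∧ ∀ w ∈ Box gβ e, Dfin d ⊆ EnumOp Φ (Nbase gβ w) := by
  classical
  have h1 : ∀ i ∈ Dfin d, ∃ e, Nat.pair i e ∈ Φ ∧ z ∈ Box gβ e := fun i hi => h hi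
  choose! f hf1 hf2 using h1
  have hfin : (Dfin d).Finite := (Set.finite_lt_nat d).subset fun i hi => lt_of_mem_Dfin hi
  have hex : ∀ s : Finset ℕ, ∃ e, Dfin e = ⋃ i ∈ s, Dfin (f i) := by
    intro s
    induction s using Finset.induction_on with
    | empty => exact ⟨0, by simp [Dfin_zero]⟩
    | insert a s _ ih =>
      obtain ⟨e, he⟩ := ih
      exact ⟨f a ||| e, by rw [Dfin_or, he]; simp⟩
  obtain ⟨e, he⟩ := hex hfin.toFinset
  refine ⟨e, ?_, ?_⟩
  · intro j hj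
    rw [he] at hj
    simp only [Set.Finite.mem_toFinset, Set.mem_iUnion] at hj
    obtain ⟨i, hi, hj⟩ := hj
    exact hf2 i hi hj
  · intro w hw i hi
    refine ⟨f i, hf1 i hi, ?_⟩
    intro j hj
    apply hw
    rw [he]
    simp only [Set.Finite.mem_toFinset, Set.mem_iUnion]
    exact ⟨i, hi, hj⟩

/-- **Stage lemma.** -/
theorem stage {Y : Type*} [TopologicalSpace Y] [T25Space Y] {γ : ℕ → Set Y}
    (hγ : IsRepresentation γ) {Φ : Set ℕ} (hΦ : CE Φ) (s : GP) (k : ℕ) :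
    ∃ (s' : GP) (k' : ℕ), Cyl s' k' ⊆ Cyl s k ∧
      ∀ z ∈ Cyl s' k', ∀ y : Y, Nbase γ y = EnumOp Φ (Nbase gβ z) → CE (Nbase γ y) := by
  classical
  set D : Set GP := {z | ∃ y : Y, Nbase γ y = EnumOp Φ (Nbase gβ z)} with hD
  by_cases hA : ∃ e, (Box gβ e ∩ Cyl s k).Nonempty ∧ ¬ (Box gβ e ∩ Cyl s k ∩ D).Nonempty
  · -- the domain is not dense in the cylinder
    obtain ⟨e, ⟨x, hx, hxs⟩, hno⟩ := hA
    refine ⟨x, max k e, ?_, ?_⟩
    · intro z hz j hj
      rw [hz j (lt_of_lt_of_le hj (le_max_left _ _)), hxs j hj]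
    · intro z hz y hy
      exfalso
      apply hno
      refine ⟨z, ⟨?_, ?_⟩, y, hy⟩
      · refine Box_congr (z := x) ?_ hx
        intro j hj
        exact (hz j (lt_of_lt_of_le hj (le_max_right _ _))).symm
      · intro j hj
        rw [hz j (lt_of_lt_of_le hj (le_max_left _ _)), hxs j hj]
  push Not at hA
  have hdense : ∀ e, (Box gβ e ∩ Cyl s k).Nonempty → (Box gβ e ∩ Cyl s k ∩ D).Nonempty := hA
  by_cases hB : ∃ x₁ x₂ : GP, ∃ y₁ y₂ : Y, x₁ ∈ Cyl s k ∧ x₂ ∈ Cyl s k ∧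
      Nbase γ y₁ = EnumOp Φ (Nbase gβ x₁) ∧ Nbase γ y₂ = EnumOp Φ (Nbase gβ x₂) ∧ y₁ ≠ y₂
  · -- two different values: jump to the intersection of the closures
    obtain ⟨x₁, x₂, y₁, y₂, hx₁, hx₂, h₁, h₂, hne⟩ := hB
    obtain ⟨V₁, hyV₁, hV₁, V₂, hyV₂, hV₂, hdis⟩ := exists_open_nhds_disjoint_closure hne
    obtain ⟨d₁, hd₁, hd₁V⟩ := exists_Box hγ hV₁ hyV₁
    obtain ⟨d₂, hd₂, hd₂V⟩ := exists_Box hγ hV₂ hyV₂
    have hd₁' : Dfin d₁ ⊆ EnumOp Φ (Nbase gβ x₁) := by rw [← h₁]; exact hd₁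
    have hd₂' : Dfin d₂ ⊆ EnumOp Φ (Nbase gβ x₂) := by rw [← h₂]; exact hd₂
    obtain ⟨e₁, hxe₁, he₁⟩ := EnumOp_cont hd₁'
    obtain ⟨e₂, hxe₂, he₂⟩ := EnumOp_cont hd₂'
    set M := ∏ i ∈ Finset.range (e₁ + e₂), md i with hM
    have hMpos : 0 < M := Finset.prod_pos fun i _ => Nat.succ_pos _
    set m := max k (max e₁ e₂) with hm
    refine ⟨fun j => if j < k then s j else M - 1, m, ?_, ?_⟩
    · intro z hz j hj
      have := hz j (lt_of_lt_of_le hj (le_max_left _ _))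
      simpa [hj] using this
    · intro z hz y hy
      exfalso
      have hzs : z ∈ Cyl s k := by
        intro j hj
        have := hz j (lt_of_lt_of_le hj (le_max_left _ _))
        simpa [hj] using this
      have hzM : ∀ j, k ≤ j → j < m → z j + 1 = M := by
        intro j hj hjm
        have h0 : z j = M - 1 := by
          have := hz j hjm
          simpa [Nat.not_lt.2 hj] using this
        omega
      -- y lies in both closures
      have main : ∀ (x : GP) (e₀ d₀ : ℕ) (V : Set Y), x ∈ Cyl s k → x ∈ Box gβ e₀ →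
          e₀ ≤ m → (∀ i ∈ Dfin e₀, md i ∣ M) →
          (∀ w ∈ Box gβ e₀, Dfin d₀ ⊆ EnumOp Φ (Nbase gβ w)) → Box γ d₀ ⊆ V → y ∈ closure V := by
        intro x e₀ d₀ V hxs hxe hem hdiv hw hV
        rw [mem_closure_iff]
        intro O hO hyO
        obtain ⟨d, hd, hdO⟩ := exists_Box hγ hO hyO
        have hd' : Dfin d ⊆ EnumOp Φ (Nbase gβ z) := by rw [← hy]; exact hd
        obtain ⟨e, hze, he⟩ := EnumOp_cont hd'
        have hne := inter_nonempty hxe hxs hem hdiv hzs hzM hze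
        obtain ⟨w, ⟨hwb, hws⟩, y', hy'⟩ := hdense _ hne
        rw [Box_or] at hwb
        refine ⟨y', hdO ?_, hV ?_⟩
        · show Dfin d ⊆ Nbase γ y'
          rw [hy']
          exact he w hwb.1
        · show Dfin d₀ ⊆ Nbase γ y'
          rw [hy']
          exact hw w hwb.2
      have c₁ := main x₁ e₁ d₁ V₁ hx₁ hxe₁ ((le_max_left _ _).trans (le_max_right _ _))
        (fun i hi => Finset.dvd_prod_of_mem md
          (Finset.mem_range.2 (by have := lt_of_mem_Dfin hi; omega))) he₁ hd₁V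
      have c₂ := main x₂ e₂ d₂ V₂ hx₂ hxe₂ ((le_max_right _ _).trans (le_max_right _ _))
        (fun i hi => Finset.dvd_prod_of_mem md
          (Finset.mem_range.2 (by have := lt_of_mem_Dfin hi; omega))) he₂ hd₂V
      exact Set.disjoint_left.1 hdis c₁ c₂
  · -- a single value: it is c.e.
    refine ⟨s, k, fun z hz => hz, ?_⟩
    intro z hz y hy
    have hconst : ∀ w ∈ Cyl s k, ∀ y' : Y, Nbase γ y' = EnumOp Φ (Nbase gβ w) → y' = y := by
      intro w hw y' hy'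
      by_contra hcon
      exact hB ⟨w, z, y', y, hw, hz, hy', hy, hcon⟩
    refine REPred.of_eq (CE_trace hΦ s k) ?_
    intro n
    constructor
    · rintro ⟨e, he, hne⟩
      obtain ⟨w, ⟨hwb, hws⟩, y', hy'⟩ := hdense _ hne
      rw [← hconst w hws y' hy', hy']
      exact ⟨e, he, hwb⟩
    · intro hn
      rw [hy] at hn
      obtain ⟨e, he, hze⟩ := hn
      exact ⟨e, he, z, hze, hz⟩

/-- points are determined by their neighbourhood sets -/
theorem Nbase_injective : Function.Injective (Nbase gβ) := by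
  intro x y h
  by_contra hne
  obtain ⟨U, V, hU, hV, hxU, hyV, hUV⟩ := t2_separation hne
  obtain ⟨e, he, heU⟩ := exists_Box gβ_rep hU hxU
  have : y ∈ Box gβ e := by
    show Dfin e ⊆ Nbase gβ y
    rw [← h]; exact he
  exact Set.disjoint_left.1 hUV (heU this) hyV

/-- avoiding a single set -/
theorem stage_avoid (W : Set ℕ) (s : GP) (k : ℕ) :
    ∃ (s' : GP) (k' : ℕ), Cyl s' k' ⊆ Cyl s k ∧ ∀ z ∈ Cyl s' k', Nbase gβ z ≠ W := by
  classical
  by_cases h : ∃ x, Nbase gβ x = W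
  · obtain ⟨x, hx⟩ := h
    refine ⟨fun j => if j < k then s j else x j + 1, k + 1, ?_, ?_⟩
    · intro z hz j hj
      have := hz j (by omega)
      simpa [hj] using this
    · intro z hz hzW
      have : z = x := Nbase_injective (hzW.trans hx.symm)
      have h2 := hz k (by omega)
      rw [this] at h2
      simp at h2
  · exact ⟨s, k, fun z hz => hz, fun z _ hz => h ⟨z, hz⟩⟩

/-- Fusion: countably many cylinder-dense requirements can be met simultaneously,
inside any given cylinder. -/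
theorem fusion {ι : Type*} [Countable ι] (P : ι → GP → Prop)
    (h : ∀ i, ∀ (s : GP) (k : ℕ), ∃ (s' : GP) (k' : ℕ), Cyl s' k' ⊆ Cyl s k ∧
      ∀ z ∈ Cyl s' k', P i z) (s : GP) (k : ℕ) :
    ∃ z ∈ Cyl s k, ∀ i, P i z := by
  classical
  -- use the Baire category theorem for the usual topology of `ℕ → ℕ`
  let U : ι → Set (ℕ → ℕ) := fun i =>
    {w | ∃ (s' : ℕ → ℕ) (k' : ℕ), w ∈ (Cyl s' k' : Set (ℕ → ℕ)) ∧
      ∀ z ∈ (Cyl s' k' : Set (ℕ → ℕ)), P i z}
  have hopenC : ∀ (s : ℕ → ℕ) (k : ℕ), IsOpen (X := ℕ → ℕ) (Cyl s k) := by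
    intro s k
    have : (Cyl s k : Set (ℕ → ℕ)) = ⋂ j ∈ Set.Iio k, (fun z : ℕ → ℕ => z j) ⁻¹' {s j} := by
      apply Set.ext
      intro z
      constructor
      · intro hz
        exact Set.mem_iInter₂.2 (fun j hj => hz j hj)
      · intro hz j hj
        exact Set.mem_iInter₂.1 hz j hj
    rw [this]
    exact (Set.finite_Iio k).isOpen_biInter fun j _ =>
      (isOpen_discrete _).preimage (continuous_apply j)
  have hopen : ∀ i, IsOpen (U i) := by
    intro i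
    rw [isOpen_iff_forall_mem_open]
    rintro z ⟨s', k', hz, hP⟩
    exact ⟨Cyl s' k', fun w hw => ⟨s', k', hw, hP⟩, hopenC _ _, hz⟩
  have hbasis : ∀ (O : Set (ℕ → ℕ)) (x : ℕ → ℕ), IsOpen O → x ∈ O →
      ∃ k, (Cyl x k : Set (ℕ → ℕ)) ⊆ O := by
    intro O x hO hx
    rw [isOpen_pi_iff] at hO
    obtain ⟨I, u, hu, hsub⟩ := hO x hx
    refine ⟨I.sup id + 1, fun z hz => hsub ?_⟩
    intro j hj
    have hj' : j ≤ I.sup id := Finset.le_sup (f := id) hj
    have h1 : z j = x j := hz j (by omega)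
    rw [h1]
    exact (hu j hj).2
  have hdense : ∀ i, Dense (U i) := by
    intro i
    rw [dense_iff_inter_open]
    rintro O hO ⟨x, hx⟩
    obtain ⟨k, hk⟩ := hbasis O x hO hx
    obtain ⟨s', k', hsub, hP⟩ := h i x k
    exact ⟨s', hk (hsub (fun _ _ => rfl)), s', k', fun _ _ => rfl, hP⟩
  have hD := dense_iInter_of_isOpen hopen hdense
  rw [dense_iff_inter_open] at hD
  obtain ⟨z, hz1, hz2⟩ := hD (Cyl s k) (hopenC s k) ⟨s, fun _ _ => rfl⟩
  refine ⟨z, hz1, fun i => ?_⟩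
  obtain ⟨s', k', hzp, hp⟩ := Set.mem_iInter.1 hz2 i
  exact hp z hzp

end Pool.Agent.H614R3.Golomb
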