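import Pool.Agent.H552R3.Tsen.Zero

/-! Polynomials, fewer than the number of variables, with a common zero, have infinitely many
common zeros. -/

set_option autoImplicit false

open MvPolynomial Pool.Agent.H552R3.Tsen

namespace Pool.Agent.H614R3.P2

variable {k : Type*} [Field k] [IsAlgClosed k] {σ : Type*} [Fintype σ]

theorem infinite_zeros {ι : Type*} [Fintype ι] (P : ι → MvPolynomial σ k) (x₀ : σ → k)
    (hP : ∀ i, eval x₀ (P i) = 0) (h : Fintype.card ι < Fintype.card σ) :
    {v : σ → k | ∀ i, eval v (P i) = 0}.Infinite := by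
  classical
  intro hfin
  let I : Ideal (MvPolynomial σ k) := Ideal.span (Set.range P)
  let m : Ideal (MvPolynomial σ k) := vanishingIdeal k {x₀}
  have hIm : I ≤ m := by
    rw [Ideal.span_le]
    rintro _ ⟨i, rfl⟩
    change P i ∈ m
    rw [mem_vanishingIdeal_singleton_iff]
    exact hP i
  have hz : zeroLocus k I ⊆ {v : σ → k | ∀ i, eval v (P i) = 0} := by
    intro v hv i
    exact hv (P i) (Ideal.subset_span ⟨i, rfl⟩)
  have hmin : m ∈ I.minimalPrimes := by
    refine ⟨⟨inferInstance, hIm⟩, ?_⟩
    rintro J ⟨hJ, hIJ⟩ hJm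
    have key : ∃ v : σ → k, (vanishingIdeal k {v} : Ideal (MvPolynomial σ k)) ≤ J := by
      by_contra hcon
      push Not at hcon
      have hf : ∀ v : σ → k, ∃ f : MvPolynomial σ k, eval v f = 0 ∧ f ∉ J := by
        intro v
        obtain ⟨f, hf1, hf2⟩ := Set.not_subset.1 (hcon v)
        refine ⟨f, ?_, hf2⟩
        have : f ∈ (vanishingIdeal k {v} : Ideal (MvPolynomial σ k)) := hf1
        rw [mem_vanishingIdeal_singleton_iff] at this
        exact this
      choose f hf1 hf2 using hf
      have hprod : ∏ v ∈ hfin.toFinset, f v ∈ I.radical := by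
        rw [← vanishingIdeal_zeroLocus_eq_radical (K := k)]
        refine vanishingIdeal_anti_mono hz ?_
        rw [mem_vanishingIdeal_iff]
        intro v hv
        rw [map_prod]
        exact Finset.prod_eq_zero (hfin.mem_toFinset.2 hv) (hf1 v)
      have h2 := (Ideal.IsPrime.radical_le_iff hJ).2 hIJ hprod
      obtain ⟨v, _, hv⟩ := (Ideal.IsPrime.prod_mem_iff (hp := hJ)).1 h2
      exact hf2 v hv
    obtain ⟨v, hv⟩ := key
    have hmax : (vanishingIdeal k {v} : Ideal (MvPolynomial σ k)).IsMaximal :=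
      isMaximal_iff_eq_vanishingIdeal_singleton.2 ⟨v, rfl⟩
    have heq : (vanishingIdeal k {v} : Ideal (MvPolynomial σ k)) = m :=
      hmax.eq_of_le (Ideal.IsPrime.ne_top inferInstance) (hv.trans hJm)
    rw [← heq]
    exact hv
  have hht : m.height ≤ (Fintype.card ι : ℕ∞) := by
    have h1 := Ideal.height_le_card_of_mem_minimalPrimes_span (Set.finite_range P) hmin
    refine h1.trans ?_
    have h2 : (Set.range P).ncard ≤ Fintype.card ι := by
      rw [← Set.image_univ]
      refine (Set.ncard_image_le (Set.finite_univ)).trans ?_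
      rw [Set.ncard_univ, Nat.card_eq_fintype_card]
    exact_mod_cast h2
  have hdim : ringKrullDim (MvPolynomial σ k) ≤ ((Fintype.card ι : ℕ∞) : WithBot ℕ∞) := by
    rw [ringKrullDim_le_iff_isMaximal_height_le]
    intro M hM
    obtain ⟨x, rfl⟩ := isMaximal_iff_eq_vanishingIdeal_singleton.1 hM
    rw [height_point, ← height_point x₀]
    exact_mod_cast hht
  rw [MvPolynomial.ringKrullDim_of_isNoetherianRing, ringKrullDim_eq_zero_of_field, zero_add,
    Nat.card_eq_fintype_card] at hdim
  have h3 : ((Fintype.card σ : ℕ∞) : WithBot ℕ∞) ≤ ((Fintype.card ι : ℕ∞) : WithBot ℕ∞) := by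
    exact_mod_cast hdim
  have h4 : (Fintype.card σ : ℕ∞) ≤ (Fintype.card ι : ℕ∞) := by exact_mod_cast h3
  have h5 : Fintype.card σ ≤ Fintype.card ι := by exact_mod_cast h4
  omega

end Pool.Agent.H614R3.P2
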