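import Mathlib

/-! Bigraded pieces and eigenvalues. -/

set_option autoImplicit false

open MvPolynomial

namespace Pool.Agent.H614R3.P2

section Grading

variable {F : Type*} [Field F] {τ : Type*} {W : τ → ℕ × ℕ}

/-- product with a homogeneous polynomial and components -/
theorem comp_mul {g : MvPolynomial τ F} {D : ℕ × ℕ} (hg : IsWeightedHomogeneous W g D)
    (c : MvPolynomial τ F) (E : ℕ × ℕ) :
    weightedHomogeneousComponent W (E + D) (c * g) = weightedHomogeneousComponent W E c * g := by
  classical
  induction c using MvPolynomial.induction_on' with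
  | monomial d a =>
    have h1 : IsWeightedHomogeneous W (monomial d a) (Finsupp.weight W d) :=
      isWeightedHomogeneous_monomial W d a rfl
    have h2 := h1.mul hg
    by_cases h : Finsupp.weight W d = E
    · subst h
      rw [h2.weightedHomogeneousComponent_same, h1.weightedHomogeneousComponent_same]
    · rw [h2.weightedHomogeneousComponent_ne _ (fun h3 => h (add_right_cancel h3).symm),
        h1.weightedHomogeneousComponent_ne _ (fun h3 => h h3.symm), zero_mul]
  | add p q hp hq => rw [add_mul, map_add, hp, hq, map_add, add_mul]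

theorem eval_comp_zero {r : MvPolynomial τ F} {D : ℕ × ℕ} (hr : IsWeightedHomogeneous W r D)
    (x : τ → F) (hx : eval x r = 0) (p : MvPolynomial τ F) (E : ℕ × ℕ) :
    eval x (weightedHomogeneousComponent W E (p * r)) = 0 := by
  classical
  induction p using MvPolynomial.induction_on' with
  | monomial d a =>
    have h1 : IsWeightedHomogeneous W (monomial d a) (Finsupp.weight W d) :=
      isWeightedHomogeneous_monomial W d a rfl
    have h2 := h1.mul hr
    by_cases h : Finsupp.weight W d + D = E
    · rw [← h, h2.weightedHomogeneousComponent_same, map_mul, hx, mul_zero]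
    · rw [h2.weightedHomogeneousComponent_ne _ (fun h3 => h h3.symm), map_zero]
  | add p q hp hq => rw [add_mul, map_add, map_add, hp, hq, add_zero]

/-- Elements of the ideal generated by `r` and `g`, in a bidegree. -/
theorem exists_quot {ι : Type*} [Fintype ι] (r : ι → MvPolynomial τ F) (Dr : ι → ℕ × ℕ)
    (hr : ∀ j, IsWeightedHomogeneous W (r j) (Dr j)) (g : MvPolynomial τ F) (G : ℕ × ℕ)
    (hg : IsWeightedHomogeneous W g G) (E : ℕ × ℕ)
    (hE : ∀ d : τ →₀ ℕ, Finsupp.weight W d = E + G →
      (monomial d 1 : MvPolynomial τ F) ∈ Ideal.span (Set.range r) ⊔ Ideal.span {g})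
    (q : MvPolynomial τ F) (hq : IsWeightedHomogeneous W q (E + G)) :
    ∃ c : MvPolynomial τ F, IsWeightedHomogeneous W c E ∧
      ∀ x : τ → F, (∀ j, eval x (r j) = 0) → eval x q = eval x c * eval x g := by
  classical
  have hmem : q ∈ Ideal.span (Set.range r) ⊔ Ideal.span {g} := by
    rw [q.as_sum]
    refine Ideal.sum_mem _ fun d hd => ?_
    have h1 : (monomial d (coeff d q) : MvPolynomial τ F) = C (coeff d q) * monomial d 1 := by
      rw [C_mul_monomial, mul_one]
    rw [h1]
    exact Ideal.mul_mem_left _ _ (hE d (hq (mem_support_iff.1 hd)))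
  obtain ⟨a, ha, b, hb, hab⟩ := Submodule.mem_sup.1 hmem
  obtain ⟨p, rfl⟩ := (Ideal.mem_span_range_iff_exists_fun).1 ha
  obtain ⟨c, rfl⟩ := Ideal.mem_span_singleton'.1 hb
  refine ⟨weightedHomogeneousComponent W E c,
    weightedHomogeneousComponent_isWeightedHomogeneous _ _, fun x hx => ?_⟩
  have h2 := hq.weightedHomogeneousComponent_same
  rw [← hab, map_add, comp_mul hg, map_sum] at h2
  have h3 := congrArg (eval x) h2
  rw [hab, map_add, map_sum, map_mul, Finset.sum_eq_zero
    (fun j _ => eval_comp_zero (hr j) x (hx j) (p j) (E + G)), zero_add] at h3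
  exact h3.symm

/-- A quotient of two forms of the same bidegree takes only finitely many values. -/
theorem exists_finite {ι : Type*} [Fintype ι] (r : ι → MvPolynomial τ F) (Dr : ι → ℕ × ℕ)
    (hr : ∀ j, IsWeightedHomogeneous W (r j) (Dr j)) (g : MvPolynomial τ F) (G : ℕ × ℕ)
    (hg : IsWeightedHomogeneous W g G) (E : ℕ × ℕ)
    (hE : ∀ d : τ →₀ ℕ, Finsupp.weight W d = E + G →
      (monomial d 1 : MvPolynomial τ F) ∈ Ideal.span (Set.range r) ⊔ Ideal.span {g})
    (hfin : {d : τ →₀ ℕ | Finsupp.weight W d = E}.Finite)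
    (h : MvPolynomial τ F) (hh : IsWeightedHomogeneous W h G) :
    ∃ L : Set F, L.Finite ∧ ∀ x : τ → F, (∀ j, eval x (r j) = 0) → eval x g ≠ 0 →
      (∃ d : τ →₀ ℕ, Finsupp.weight W d = E ∧ eval x (monomial d 1) ≠ 0) →
      eval x h / eval x g ∈ L := by
  classical
  have := hfin.fintype
  have hq : ∀ d : {d : τ →₀ ℕ | Finsupp.weight W d = E},
      ∃ c : MvPolynomial τ F, IsWeightedHomogeneous W c E ∧
      ∀ x : τ → F, (∀ j, eval x (r j) = 0) →
        eval x (monomial (d : τ →₀ ℕ) 1 * h) = eval x c * eval x g := by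
    intro d
    exact exists_quot r Dr hr g G hg E hE _ ((isWeightedHomogeneous_monomial W _ _ d.2).mul hh)
  choose c hc1 hc2 using hq
  let T : Matrix {d : τ →₀ ℕ | Finsupp.weight W d = E} {d : τ →₀ ℕ | Finsupp.weight W d = E} F :=
    fun d e => coeff (e : τ →₀ ℕ) (c d)
  refine ⟨{t | T.charpoly.eval t = 0}, ?_, ?_⟩
  · have h0 : T.charpoly ≠ 0 := T.charpoly_monic.ne_zero
    refine (T.charpoly.roots.toFinset.finite_toSet).subset fun t ht => ?_
    simp only [Finset.mem_coe, Multiset.mem_toFinset]
    exact (Polynomial.mem_roots h0).2 ht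
  · intro x hx hgx ⟨d₀, hd₀, hd₀'⟩
    set μ : {d : τ →₀ ℕ | Finsupp.weight W d = E} → F :=
      fun d => eval x (monomial (d : τ →₀ ℕ) 1) with hμ
    have hTμ : T.mulVec μ = (eval x h / eval x g) • μ := by
      funext d
      have h1 : T.mulVec μ d = eval x (c d) := by
        have h2 : c d = ∑ e : {d : τ →₀ ℕ | Finsupp.weight W d = E},
            C (coeff (e : τ →₀ ℕ) (c d)) * monomial (e : τ →₀ ℕ) 1 := by
          conv_lhs => rw [(c d).as_sum]
          simp only [C_mul_monomial, mul_one]
          rw [← Finset.sum_coe_sort (c d).support]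
          symm
          rw [← Finset.sum_subset (Finset.subset_univ
            (Finset.univ.filter fun e : {d : τ →₀ ℕ | Finsupp.weight W d = E} =>
              (e : τ →₀ ℕ) ∈ (c d).support))]
          · refine Finset.sum_bij' (fun e he => ⟨(e : τ →₀ ℕ), (Finset.mem_filter.1 he).2⟩)
              (fun e _ => ⟨(e : τ →₀ ℕ), hc1 d (mem_support_iff.1 e.2)⟩) ?_ ?_ ?_ ?_ ?_
            · intros; simp
            · intro e _
              simpa using mem_support_iff.1 e.2
            · intros; rfl
            · intros; rfl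
            · intros; rfl
          · intro e _ he
            have : (e : τ →₀ ℕ) ∉ (c d).support := by
              intro h; exact he (by simpa using h)
            rw [notMem_support_iff.1 this, monomial_zero]
        rw [h2, map_sum]
        simp only [map_mul, eval_C]
        rfl
      rw [h1, Pi.smul_apply, smul_eq_mul, div_mul_eq_mul_div, eq_div_iff hgx, ← hc2 d x hx, map_mul]
      ring
    show T.charpoly.eval _ = 0
    rw [Matrix.eval_charpoly, ← Matrix.exists_mulVec_eq_zero_iff]
    refine ⟨μ, ?_, ?_⟩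
    · intro h0
      exact hd₀' (congrFun h0 ⟨d₀, hd₀⟩)
    · rw [Matrix.sub_mulVec, hTμ, sub_eq_zero]
      funext d
      simp [Matrix.mulVec_diagonal]

/-- Bigraded from two gradings. -/
theorem bihom {w₁ w₂ : τ → ℕ} {f : MvPolynomial τ F} {a b : ℕ}
    (h1 : IsWeightedHomogeneous w₁ f a) (h2 : IsWeightedHomogeneous w₂ f b) :
    IsWeightedHomogeneous (fun t => (w₁ t, w₂ t)) f (a, b) := by
  intro d hd
  have h3 := h1 hd
  have h4 := h2 hd
  rw [Finsupp.weight_apply] at h3 h4 ⊢
  refine Prod.ext ?_ ?_
  · rw [← h3, Finsupp.sum, Finsupp.sum, Prod.fst_sum]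
    rfl
  · rw [← h4, Finsupp.sum, Finsupp.sum, Prod.snd_sum]
    rfl

end Grading

end Pool.Agent.H614R3.P2
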