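import Pool.Agent.H614R3.P2Grad
import Pool.Agent.H614R3.InfZero
import Pool.Agent.Helper849.TA.Stmts2

/-! Proof of `TaskP2Step` (project H849-TILT). -/

set_option autoImplicit false

open MvPolynomial Pool.Agent.Helper849.TA

namespace Pool.Agent.H614R3.P2

/-- The torus action. -/
theorem eval_torus {F : Type*} [Field F] {τ : Type*} (W : τ → ℕ × ℕ) {f : MvPolynomial τ F}
    {D : ℕ × ℕ} (hf : IsWeightedHomogeneous W f D) (x : τ → F) (l μ : F) :
    eval (fun t => l ^ (W t).1 * μ ^ (W t).2 * x t) f = l ^ D.1 * μ ^ D.2 * eval x f := by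
  classical
  rw [eval_eq, eval_eq, Finset.mul_sum]
  refine Finset.sum_congr rfl fun d hd => ?_
  have hD := hf (mem_support_iff.1 hd)
  have h1 : ∏ i ∈ d.support, (l ^ (W i).1 * μ ^ (W i).2 * x i) ^ d i =
      l ^ D.1 * μ ^ D.2 * ∏ i ∈ d.support, x i ^ d i := by
    have h2 : ∀ i, (l ^ (W i).1 * μ ^ (W i).2 * x i) ^ d i =
        l ^ ((W i).1 * d i) * μ ^ ((W i).2 * d i) * x i ^ d i := by
      intro i
      rw [mul_pow, mul_pow, ← pow_mul, ← pow_mul]
    rw [Finset.prod_congr rfl fun i _ => h2 i, Finset.prod_mul_distrib, Finset.prod_mul_distrib,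
      Finset.prod_pow_eq_pow_sum, Finset.prod_pow_eq_pow_sum]
    rw [Finsupp.weight_apply] at hD
    have h3 : ∑ i ∈ d.support, (W i).1 * d i = D.1 := by
      rw [← hD, Finsupp.sum, Prod.fst_sum]
      refine Finset.sum_congr rfl fun i _ => ?_
      simp [mul_comm]
    have h4 : ∑ i ∈ d.support, (W i).2 * d i = D.2 := by
      rw [← hD, Finsupp.sum, Prod.snd_sum]
      refine Finset.sum_congr rfl fun i _ => ?_
      simp [mul_comm]
    rw [h3, h4]
  rw [h1]
  ring

theorem eval_aeval_eq {F : Type*} [Field F] {τ κ : Type*} (φ : τ → MvPolynomial κ F) (v : κ → F)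
    (p : MvPolynomial τ F) : eval v (aeval φ p) = eval (fun t => eval v (φ t)) p := by
  induction p using MvPolynomial.induction_on with
  | C a => simp
  | add p q hp hq => rw [map_add, map_add, map_add, hp, hq]
  | mul_X p i hp => rw [map_mul, map_mul, map_mul, hp, aeval_X, eval_X]

section Weights

variable {N m : ℕ} (v : Fin (m + 1) → ℕ)

/-- The bigrading. -/
def W : Fin (N + 1) ⊕ Fin (m + 1) → ℕ × ℕ := fun t =>
  ((Sum.elim (fun _ => 1) v : Fin (N + 1) ⊕ Fin (m + 1) → ℕ) t,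
    (Sum.elim (fun _ => 0) (fun _ => 1) : Fin (N + 1) ⊕ Fin (m + 1) → ℕ) t)

theorem weight_W (d : Fin (N + 1) ⊕ Fin (m + 1) →₀ ℕ) :
    Finsupp.weight (W v) d =
      (∑ i, d (Sum.inl i) + ∑ j, d (Sum.inr j) * v j, ∑ j, d (Sum.inr j)) := by
  classical
  rw [Finsupp.weight_apply, Finsupp.sum_fintype _ (fun i c => c • W v i)
    (fun i => zero_smul ℕ (W v i)), Fintype.sum_sum_type]
  refine Prod.ext ?_ ?_
  · simp [W, Prod.fst_sum]
  · simp [W, Prod.snd_sum]

theorem finite_W (E : ℕ × ℕ) :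
    {d : Fin (N + 1) ⊕ Fin (m + 1) →₀ ℕ | Finsupp.weight (W v) d = E}.Finite := by
  classical
  refine (Finsupp.finite_of_nat_weight_le (σ := Fin (N + 1) ⊕ Fin (m + 1)) (fun _ => 1)
    (fun _ => one_ne_zero) (E.1 + E.2)).subset fun d hd => ?_
  have h1 : Finsupp.weight (W v) d = E := hd
  rw [weight_W] at h1
  show Finsupp.weight (fun _ => 1) d ≤ _
  rw [Finsupp.weight_apply, Finsupp.sum_fintype _ (fun i c => c • 1)
    (fun i => zero_smul ℕ 1), Fintype.sum_sum_type]
  rw [← h1]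
  simp only [smul_eq_mul, mul_one]
  omega

/-- Monomials of large bidegree. -/
theorem large_monomial (M a' b' : ℕ) (d : Fin (N + 1) ⊕ Fin (m + 1) →₀ ℕ)
    (hd : Finsupp.weight (W v) d =
      ((∑ j, v j) * ((m + 1) * M + b') + (N + 1) * M, (m + 1) * M) + (a', b')) :
    ∃ i j, M ≤ d (Sum.inl i) ∧ M ≤ d (Sum.inr j) := by
  classical
  rw [weight_W] at hd
  have h1 : ∑ i, d (Sum.inl i) + ∑ j, d (Sum.inr j) * v j =
      (∑ j, v j) * ((m + 1) * M + b') + (N + 1) * M + a' := congrArg Prod.fst hd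
  have h2 : ∑ j, d (Sum.inr j) = (m + 1) * M + b' := congrArg Prod.snd hd
  have h3 : ∑ j, d (Sum.inr j) * v j ≤ (∑ j, v j) * ((m + 1) * M + b') := by
    rw [← h2, Finset.mul_sum]
    refine Finset.sum_le_sum fun j _ => ?_
    rw [mul_comm]
    exact Nat.mul_le_mul_right _ (Finset.single_le_sum (fun _ _ => Nat.zero_le _)
      (Finset.mem_univ j))
  have h4 : (N + 1) * M ≤ ∑ i, d (Sum.inl i) := by omega
  have h5 : (m + 1) * M ≤ ∑ j, d (Sum.inr j) := by omega
  obtain ⟨i, _, hi⟩ := Finset.exists_le_of_sum_le (s := (Finset.univ : Finset (Fin (N + 1))))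
    (f := fun _ => M) (g := fun i => d (Sum.inl i)) Finset.univ_nonempty (by simpa using h4)
  obtain ⟨j, _, hj⟩ := Finset.exists_le_of_sum_le (s := (Finset.univ : Finset (Fin (m + 1))))
    (f := fun _ => M) (g := fun j => d (Sum.inr j)) Finset.univ_nonempty (by simpa using h5)
  exact ⟨i, j, hi, hj⟩

end Weights

theorem taskP2Step : TaskP2Step := by
  classical
  intro F _ _ N m v s hs r a b ha hb z₀ y₀ hz₀ hy₀ hr₀ g a' b' hb' hv hg1 hg2
  by_contra hcon
  push Not at hcon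
  -- bihomogeneity
  have hr : ∀ j, IsWeightedHomogeneous (W v) (r j) (a j, b j) := fun j => bihom (ha j) (hb j)
  have hg : IsWeightedHomogeneous (W v) g (a', b') := bihom hg1 hg2
  -- Nullstellensatz
  set I : Ideal (MvPolynomial (Fin (N + 1) ⊕ Fin (m + 1)) F) :=
    Ideal.span (Set.range r) ⊔ Ideal.span {g} with hI
  have hrad : ∀ (i : Fin (N + 1)) (j : Fin (m + 1)),
      ∃ n : ℕ, (X (Sum.inl i) * X (Sum.inr j) : MvPolynomial _ F) ^ n ∈ I := by
    intro i j
    have h1 : (X (Sum.inl i) * X (Sum.inr j) : MvPolynomial _ F) ∈ I.radical := by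
      rw [← vanishingIdeal_zeroLocus_eq_radical (K := F), mem_vanishingIdeal_iff]
      intro x hx
      rw [mem_zeroLocus_iff] at hx
      by_contra hne
      have hx1 : x (Sum.inl i) ≠ 0 := by
        intro h; apply hne; simp [h]
      have hx2 : x (Sum.inr j) ≠ 0 := by
        intro h; apply hne; simp [h]
      have hxe : Sum.elim (x ∘ Sum.inl) (x ∘ Sum.inr) = x := Sum.elim_comp_inl_inr x
      refine hcon (x ∘ Sum.inl) (x ∘ Sum.inr) (fun h => hx1 (congrFun h i))
        (fun h => hx2 (congrFun h j)) ?_ ?_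
      · intro l
        rw [hxe]
        exact hx _ (Ideal.mem_sup_left (Ideal.subset_span ⟨l, rfl⟩))
      · rw [hxe]
        exact hx _ (Ideal.mem_sup_right (Ideal.subset_span rfl))
    exact h1
  choose n hn using hrad
  set M : ℕ := ∑ i, ∑ j, n i j with hM
  have hnM : ∀ i j, n i j ≤ M := fun i j =>
    (Finset.single_le_sum (f := fun j => n i j) (fun _ _ => Nat.zero_le _)
      (Finset.mem_univ j)).trans
      (Finset.single_le_sum (f := fun i => ∑ j, n i j) (fun _ _ => Nat.zero_le _)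
        (Finset.mem_univ i))
  set E : ℕ × ℕ := ((∑ j, v j) * ((m + 1) * M + b') + (N + 1) * M, (m + 1) * M) with hE
  have hmon : ∀ d : (Fin (N + 1) ⊕ Fin (m + 1)) →₀ ℕ, Finsupp.weight (W v) d = E + (a', b') →
      (monomial d 1 : MvPolynomial _ F) ∈ I := by
    intro d hd
    obtain ⟨i, j, hi, hj⟩ := large_monomial v M a' b' d hd
    have h1 : (X (Sum.inl i) * X (Sum.inr j) : MvPolynomial _ F) ^ M ∣ monomial d 1 := by
      rw [mul_pow, X_pow_eq_monomial, X_pow_eq_monomial, monomial_mul, monomial_dvd_monomial]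
      refine ⟨Or.inr ?_, by simp⟩
      intro t
      rcases t with t | t
      · by_cases h : t = i
        · subst h; simpa using hi
        · simp [Ne.symm h]
      · by_cases h : t = j
        · subst h; simpa using hj
        · simp [Ne.symm h]
    exact I.mem_of_dvd h1 (I.mem_of_dvd (pow_dvd_pow _ (hnM i j)) (hn i j))
  have hfinite := fun h hh => exists_finite (W := W v) r (fun j => (a j, b j)) hr g (a', b') hg E
    hmon (finite_W v E) h hh
  -- the chart
  obtain ⟨i₀, hi₀⟩ : ∃ i, z₀ i ≠ 0 := by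
    by_contra h; push Not at h; exact hz₀ (funext h)
  obtain ⟨j₀, hj₀⟩ : ∃ j, y₀ j ≠ 0 := by
    by_contra h; push Not at h; exact hy₀ (funext h)
  let κ : Type := {i : Fin (N + 1) // i ≠ i₀} ⊕ {j : Fin (m + 1) // j ≠ j₀}
  let φ : Fin (N + 1) ⊕ Fin (m + 1) → MvPolynomial κ F :=
    Sum.elim (fun i => if h : i = i₀ then 1 else X (Sum.inl ⟨i, h⟩))
      (fun j => if h : j = j₀ then 1 else X (Sum.inr ⟨j, h⟩))
  let ex : (κ → F) → (Fin (N + 1) ⊕ Fin (m + 1) → F) := fun u t => eval u (φ t)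
  have hex1 : ∀ u, ex u (Sum.inl i₀) = 1 := by intro u; simp [ex, φ]
  have hex2 : ∀ u, ex u (Sum.inr j₀) = 1 := by intro u; simp [ex, φ]
  have hex3 : ∀ u (i : {i : Fin (N + 1) // i ≠ i₀}), ex u (Sum.inl i) = u (Sum.inl i) := by
    intro u i; simp [ex, φ, i.2]
  have hex4 : ∀ u (j : {j : Fin (m + 1) // j ≠ j₀}), ex u (Sum.inr j) = u (Sum.inr j) := by
    intro u j; simp [ex, φ, j.2]
  have hcard : Fintype.card (Fin s) < Fintype.card κ := by
    have h1 : Fintype.card κ = N + m := by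
      simp [κ, Fintype.card_sum, Fintype.card_subtype_compl]
    rw [h1, Fintype.card_fin]
    exact hs
  -- base point
  let l : F := (z₀ i₀)⁻¹
  let μ : F := (l ^ v j₀ * y₀ j₀)⁻¹
  have hl : l ≠ 0 := inv_ne_zero hi₀
  let x₁ : Fin (N + 1) ⊕ Fin (m + 1) → F :=
    fun t => l ^ (W v t).1 * μ ^ (W v t).2 * (Sum.elim z₀ y₀ : _ → F) t
  have hx₁ : ∀ j, eval x₁ (r j) = 0 := by
    intro j
    have := eval_torus (W v) (hr j) (Sum.elim z₀ y₀) l μ
    rw [hr₀ j, mul_zero] at this
    exact this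
  let u₁ : κ → F := Sum.elim (fun i => x₁ (Sum.inl i)) (fun j => x₁ (Sum.inr j))
  have hu₁ : ex u₁ = x₁ := by
    funext t
    rcases t with t | t
    · by_cases h : t = i₀
      · subst h
        rw [hex1]
        simp [x₁, W, l, inv_mul_cancel₀ hi₀]
      · exact hex3 u₁ ⟨t, h⟩
    · by_cases h : t = j₀
      · subst h
        rw [hex2]
        have h3 : l ^ v t * y₀ t ≠ 0 := mul_ne_zero (pow_ne_zero _ hl) hj₀
        simp only [x₁, W, Sum.elim_inr, pow_one, μ]
        field_simp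
      · exact hex4 u₁ ⟨t, h⟩
  have hinf := infinite_zeros (fun j => aeval φ (r j)) u₁ (by
    intro j
    rw [eval_aeval_eq]
    show eval (ex u₁) (r j) = 0
    rw [hu₁]
    exact hx₁ j) hcard
  -- nonvanishing
  have hgne : ∀ u : κ → F, (∀ j, eval u (aeval φ (r j)) = 0) → eval (ex u) g ≠ 0 := by
    intro u hu
    have hxe : Sum.elim (ex u ∘ Sum.inl) (ex u ∘ Sum.inr) = ex u := Sum.elim_comp_inl_inr _
    have := hcon (ex u ∘ Sum.inl) (ex u ∘ Sum.inr)
      (fun h => one_ne_zero ((hex1 u).symm.trans (congrFun h i₀)))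
      (fun h => one_ne_zero ((hex2 u).symm.trans (congrFun h j₀)))
    rw [hxe] at this
    exact this (fun j => by rw [← eval_aeval_eq φ u]; exact hu j)
  have hE1 : v j₀ * E.2 ≤ E.1 := by
    rw [hE]
    have h1 : v j₀ ≤ ∑ j, v j := Finset.single_le_sum (fun _ _ => Nat.zero_le _)
      (Finset.mem_univ j₀)
    calc v j₀ * ((m + 1) * M) ≤ (∑ j, v j) * ((m + 1) * M) := Nat.mul_le_mul_right _ h1
      _ ≤ (∑ j, v j) * ((m + 1) * M + b') := Nat.mul_le_mul_left _ (Nat.le_add_right _ _)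
      _ ≤ _ := Nat.le_add_right _ _
  have hmonne : ∀ u : κ → F, ∃ d : (Fin (N + 1) ⊕ Fin (m + 1)) →₀ ℕ,
      Finsupp.weight (W v) d = E ∧ eval (ex u) (monomial d 1) ≠ 0 := by
    intro u
    refine ⟨Finsupp.single (Sum.inl i₀) (E.1 - v j₀ * E.2) + Finsupp.single (Sum.inr j₀) E.2,
      ?_, ?_⟩
    · rw [map_add, Finsupp.weight_single, Finsupp.weight_single]
      refine Prod.ext ?_ ?_
      · simp only [W, Sum.elim_inl, Sum.elim_inr, Prod.fst_add, Prod.smul_fst, smul_eq_mul]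
        rw [mul_comm E.2]
        omega
      · simp [W]
    · have h1 : (monomial (Finsupp.single (Sum.inl i₀) (E.1 - v j₀ * E.2) +
          Finsupp.single (Sum.inr j₀) E.2) 1 : MvPolynomial (Fin (N + 1) ⊕ Fin (m + 1)) F) =
          X (Sum.inl i₀) ^ (E.1 - v j₀ * E.2) * X (Sum.inr j₀) ^ E.2 := by
        rw [X_pow_eq_monomial, X_pow_eq_monomial, monomial_mul, one_mul]
      rw [h1, map_mul, map_pow, map_pow, eval_X, eval_X, hex1, hex2]
      simp
  -- every coordinate takes finitely many values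
  have hX1 : ∀ i : Fin (N + 1), IsWeightedHomogeneous (W v)
      (X (Sum.inl i) : MvPolynomial (Fin (N + 1) ⊕ Fin (m + 1)) F) (1, 0) := fun i =>
    isWeightedHomogeneous_X _ _ _
  have hX2 : ∀ j : Fin (m + 1), IsWeightedHomogeneous (W v)
      (X (Sum.inr j) : MvPolynomial (Fin (N + 1) ⊕ Fin (m + 1)) F) (v j, 1) := fun j =>
    isWeightedHomogeneous_X _ _ _
  have hform : ∀ (f : MvPolynomial (Fin (N + 1) ⊕ Fin (m + 1)) F) (c e : ℕ),
      IsWeightedHomogeneous (W v) f (c, e) → e ≤ b' → c + (b' - e) * v j₀ ≤ a' →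
      IsWeightedHomogeneous (W v) (f * (X (Sum.inl i₀) ^ (a' - (c + (b' - e) * v j₀)) *
        X (Sum.inr j₀) ^ (b' - e))) (a', b') := by
    intro f c e hf he hc
    have h1 := hf.mul (((hX1 i₀).pow (a' - (c + (b' - e) * v j₀))).mul ((hX2 j₀).pow (b' - e)))
    convert h1 using 1
    refine Prod.ext ?_ ?_
    · simp only [Prod.fst_add, Prod.smul_fst, smul_eq_mul, mul_one]
      omega
    · simp only [Prod.snd_add, Prod.smul_snd, smul_eq_mul, mul_zero, mul_one]
      omega
  have hval : ∀ (f : MvPolynomial (Fin (N + 1) ⊕ Fin (m + 1)) F) (c e : ℕ),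
      IsWeightedHomogeneous (W v) f (c, e) → e ≤ b' → c + (b' - e) * v j₀ ≤ a' →
      ∃ L : Set F, L.Finite ∧ ∀ u : κ → F, (∀ j, eval u (aeval φ (r j)) = 0) →
        eval (ex u) f / eval (ex u) g ∈ L := by
    intro f c e hf he hc
    obtain ⟨L, hL, hL2⟩ := hfinite _ (hform f c e hf he hc)
    refine ⟨L, hL, fun u hu => ?_⟩
    have h1 := hL2 (ex u) (fun j => by rw [← hu j, eval_aeval_eq]) (hgne u hu) (hmonne u)
    simpa only [map_mul, map_pow, eval_X, hex1, hex2, one_pow, mul_one] using h1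
  obtain ⟨L0, hL0, hL0'⟩ := hval 1 0 0 (isWeightedHomogeneous_one _ _) (Nat.zero_le _) (by
    have := hv j₀
    simp only [zero_add, Nat.sub_zero]
    exact this.le)
  have hcoord : ∀ t : κ, ∃ L : Set F, L.Finite ∧ ∀ u : κ → F,
      (∀ j, eval u (aeval φ (r j)) = 0) → u t / eval (ex u) g ∈ L := by
    intro t
    rcases t with t | t
    · obtain ⟨L, hL, hL'⟩ := hval (X (Sum.inl (t : Fin (N + 1)))) 1 0 (hX1 t) (Nat.zero_le _) (by
        have := hv j₀
        simp only [Nat.sub_zero]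
        omega)
      refine ⟨L, hL, fun u hu => ?_⟩
      have := hL' u hu
      rwa [eval_X, hex3] at this
    · obtain ⟨L, hL, hL'⟩ := hval (X (Sum.inr (t : Fin (m + 1)))) (v t) 1 (hX2 t) hb' (by
        have h1 := hv j₀
        have h2 := hv t
        obtain ⟨b'', rfl⟩ : ∃ b'', b' = b'' + 1 := ⟨b' - 1, by omega⟩
        rw [Nat.add_sub_cancel]
        rcases le_total (v t) (v j₀) with h | h
        · nlinarith
        · nlinarith [Nat.mul_le_mul_left b'' h])
      refine ⟨L, hL, fun u hu => ?_⟩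
      have := hL' u hu
      rwa [eval_X, hex4] at this
  choose L hL hL' using hcoord
  refine hinf ((Set.Finite.pi' (fun t => (hL t).image2 (fun p q => p / q) hL0)).subset
    fun u hu t => ?_)
  have hu' : ∀ j, eval u (aeval φ (r j)) = 0 := hu
  refine ⟨_, hL' t u hu', _, hL0' u hu', ?_⟩
  have := hgne u hu'
  simp only [map_one]
  field_simp

end Pool.Agent.H614R3.P2
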