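import Pool.Agent.H43R3.SN.StmtsB

/-!
# Task SRC of project H43-SN: exact cover is bin packing
-/

set_option autoImplicit false

open Finset

namespace Pool.Agent.H614R3.SRC

open Pool.Agent.NPC Pool.Agent.NPC.H632 Pool.Agent.H557R2.Tri Pool.Agent.H692R2 Pool.Agent.H43R3.SN

theorem sum_bins {α : Type} (d : α) (g : α → ℕ) (P : α → Prop) [DecidablePred P] (E : List α) :
    ∑ i ∈ (range E.length).filter (fun i => P (E.getD i d)), (E.map g).getD i 0 =
      ((E.filter (fun e => decide (P e))).map g).sum := by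
  rw [Finset.sum_filter]
  induction E with
  | nil => simp
  | cons a E ih =>
    rw [List.length_cons, Finset.sum_range_succ']
    simp only [List.getD_cons_succ, List.map_cons, List.getD_cons_zero]
    rw [ih]
    by_cases h : P a <;> simp [h, add_comm]

variable {S : List (ℕ × ℕ × ℕ)} {q : ℕ}

theorem sz_int (h : Pr S q) {e : Elt} (he : e ∈ EE S q) :
    ((sz S.length q e : ℕ) : ℤ) = (MM S.length q : ℤ) * wt e.1 + (mn S.length e + HH S.length q) ∧
    -HH S.length q ≤ mn S.length e ∧ mn S.length e ≤ HH S.length q ∧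
    (wt e.1 = 16 ∧ e.1 = 0 ∨ wt e.1 = 17 ∧ e.1 = 1 ∨ wt e.1 = 19 ∧ e.1 = 2) := by
  have h1 : |mn S.length e| ≤ HH S.length q :=
    (Int.abs_ediv_le_abs e.2 (RR S.length)).trans (h.abs_le he)
  have h2 := abs_le.1 h1
  refine ⟨?_, h2.1, h2.2, ?_⟩
  · unfold Pool.Agent.H43R3.SN.sz
    push_cast
    rw [Int.toNat_of_nonneg (by linarith [h2.1])]
  · have h3 := (h.small he).2
    unfold wt
    rcases h4 : e.1 with _ | _ | _ | n
    · simp
    · simp
    · simp
    · omega

theorem MM_int (m q : ℕ) : (MM m q : ℤ) = 100 * HH m q + 100 := by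
  have := (HH_ge m q).2
  unfold MM
  push_cast
  rw [Int.toNat_of_nonneg (by linarith)]

theorem BB_int (I : List (ℕ × ℕ × ℕ) × ℕ) :
    (BB I : ℤ) = 52 * (MM I.1.length I.2 : ℤ) + 3 * HH I.1.length I.2 := by
  have := (HH_ge I.1.length I.2).2
  unfold BB
  push_cast
  rw [Int.toNat_of_nonneg (by linarith)]

theorem tri_sum (h : Pr S q) {t : Elt × Elt × Elt} (ht : ∀ e ∈ el t, e ∈ EE S q) (h1 : Trans t)
    (h2 : ms S.length t = 0) :
    ((el t).map (sz S.length q)).sum = BB (S, q) := by
  have ha := sz_int h (ht t.1 (by simp [el]))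
  have hb := sz_int h (ht t.2.1 (by simp [el]))
  have hc := sz_int h (ht t.2.2 (by simp [el]))
  have hB := BB_int (S, q)
  simp only [el, List.map_cons, List.map_nil, List.sum_cons, List.sum_nil, add_zero]
  have hw : (wt t.1.1 : ℤ) + wt t.2.1.1 + wt t.2.2.1 = 52 := by
    rcases h1 with ⟨a, b, c⟩ | ⟨a, b, c⟩ | ⟨a, b, c⟩ | ⟨a, b, c⟩ | ⟨a, b, c⟩ | ⟨a, b, c⟩ <;>
      rw [a, b, c] <;> simp [wt]
  unfold ms at h2
  have : ((sz S.length q t.1 + (sz S.length q t.2.1 + sz S.length q t.2.2) : ℕ) : ℤ) =
      (BB (S, q) : ℤ) := by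
    push_cast
    rw [ha.1, hb.1, hc.1, hB]
    have e1 : (MM S.length q : ℤ) * wt t.1.1 + (MM S.length q : ℤ) * wt t.2.1.1 +
        (MM S.length q : ℤ) * wt t.2.2.1 = 52 * (MM S.length q : ℤ) := by
      rw [← mul_add, ← mul_add, hw]; ring
    dsimp only
    linarith
  exact_mod_cast this

theorem sum_flat {g : Elt → ℕ} {B : ℕ} : ∀ {π : List (Elt × Elt × Elt)},
    (∀ t ∈ π, ((el t).map g).sum = B) → ((π.flatMap el).map g).sum = π.length * B
  | [], _ => by simp
  | t :: l, h => by
    rw [List.flatMap_cons, List.map_append, List.sum_append, h t (by simp),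
      sum_flat (fun s hs => h s (by simp [hs])), List.length_cons]
    ring

theorem fwd (h : Pr S q) (hx : X3C (S, q)) :
    (sizes (S, q)).sum = bb (S, q) * BB (S, q) ∧
      BPk (sizes (S, q)) (bb (S, q)) (BB (S, q)) := by
  classical
  obtain ⟨π, hp, hπ⟩ := h.x3c_iff.1 hx
  have hlen := len_eq hp
  have hE := h.EE_nodup
  have hnd : (π.flatMap el).Nodup := hp.nodup_iff.2 hE
  have hmem : ∀ t ∈ π, ∀ e ∈ el t, e ∈ EE S q := fun t ht e he =>
    hp.mem_iff.1 (List.mem_flatMap.2 ⟨t, ht, he⟩)
  have htri : ∀ t ∈ π, ((el t).map (sz S.length q)).sum = BB (S, q) := fun t ht =>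
    tri_sum h (hmem t ht) (hπ t ht).1 (hπ t ht).2
  constructor
  · have h1 : (sizes (S, q)).sum = ((π.flatMap el).map (sz S.length q)).sum := by
      unfold sizes
      exact ((hp.map (sz S.length q)).sum_eq).symm
    rw [h1, sum_flat htri, hlen]
    rfl
  · let F : Elt → ℕ := fun e => π.findIdx (fun t => decide (e ∈ el t))
    let d : Elt := (0, 0)
    refine ⟨fun i => F ((EE S q).getD i d), ?_, ?_⟩
    · intro i hi
      have hi' : i < (EE S q).length := by simpa [sizes] using hi
      have h1 : (EE S q).getD i d ∈ EE S q := by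
        rw [List.getD_eq_getElem _ _ hi']; exact List.getElem_mem _
      obtain ⟨t, ht, he⟩ := List.mem_flatMap.1 (hp.mem_iff.2 h1)
      have h2 : F ((EE S q).getD i d) < π.length :=
        List.findIdx_lt_length_of_exists ⟨t, ht, by simpa using he⟩
      rw [hlen] at h2
      exact h2
    · intro j hj
      have hj' : j < π.length := by rw [hlen]; exact hj
      have h1 := sum_bins d (sz S.length q) (fun e => F e = j) (EE S q)
      have h2 : (sizes (S, q)).length = (EE S q).length := by simp [sizes]
      rw [h2]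
      show ∑ i ∈ (range (EE S q).length).filter (fun i => F ((EE S q).getD i d) = j),
        ((EE S q).map (sz S.length q)).getD i 0 ≤ _
      rw [h1]
      have h3 : ((EE S q).filter (fun e => decide (F e = j))).Perm (el (π[j]'hj')) := by
        rw [List.perm_ext_iff_of_nodup (hE.filter _)
          ((List.nodup_flatMap.1 hnd).1 _ (List.getElem_mem hj'))]
        intro e
        rw [List.mem_filter, decide_eq_true_eq]
        constructor
        · rintro ⟨he, hF⟩
          have h4 : F e < π.length := by rw [hF]; exact hj'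
          have h5 := List.findIdx_getElem (w := h4)
          have h6 : e ∈ el (π[F e]'h4) := by simpa using h5
          have h7 : π[F e]'h4 = π[j]'hj' := by congr 1
          rw [← h7]; exact h6
        · intro he
          have h4 : e ∈ EE S q := hmem _ (List.getElem_mem hj') e he
          refine ⟨h4, ?_⟩
          have h5 : F e ≤ j := by
            by_contra hcon
            push Not at hcon
            have := List.not_of_lt_findIdx hcon
            simp only [decide_eq_false_iff_not] at this
            exact this he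
          have h6 : F e < π.length := lt_of_le_of_lt h5 hj'
          have h7 : e ∈ el (π[F e]'h6) := by
            have := List.findIdx_getElem (w := h6)
            simpa using this
          by_contra hne
          have h8 : F e < j := lt_of_le_of_ne h5 hne
          have h9 := (List.pairwise_iff_getElem.1 (List.nodup_flatMap.1 hnd).2) _ _ h6 hj' h8
          exact h9 h7 he
      rw [((h3.map (sz S.length q)).sum_eq), htri _ (List.getElem_mem hj')]

theorem three {α : Type} {l : List α} (h : l.length = 3) : ∃ a b c, l = [a, b, c] :=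
  List.length_eq_three.1 h

theorem trans_of_sum (h : Pr S q) {t : Elt × Elt × Elt} (ht : ∀ e ∈ el t, e ∈ EE S q)
    (hs : ((el t).map (sz S.length q)).sum = BB (S, q)) : Trans t ∧ ms S.length t = 0 := by
  have ha := sz_int h (ht t.1 (by simp [el]))
  have hb := sz_int h (ht t.2.1 (by simp [el]))
  have hc := sz_int h (ht t.2.2 (by simp [el]))
  have hB := BB_int (S, q)
  have hM := MM_int S.length q
  have hH := (HH_ge S.length q).2
  simp only [el, List.map_cons, List.map_nil, List.sum_cons, List.sum_nil, add_zero] at hs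
  have hs' : ((sz S.length q t.1 + (sz S.length q t.2.1 + sz S.length q t.2.2) : ℕ) : ℤ) =
      (BB (S, q) : ℤ) := by rw [hs]
  push_cast at hs'
  rw [ha.1, hb.1, hc.1, hB] at hs'
  dsimp only at hs'
  obtain ⟨-, ha1, ha2, ha3⟩ := ha
  obtain ⟨-, hb1, hb2, hb3⟩ := hb
  obtain ⟨-, hc1, hc2, hc3⟩ := hc
  set M : ℤ := (MM S.length q : ℤ) with hMdef
  set H : ℤ := HH S.length q with hHdef
  set x := mn S.length t.1
  set y := mn S.length t.2.1
  set z := mn S.length t.2.2
  have e1 : M * (((wt t.1.1 + wt t.2.1.1 + wt t.2.2.1 : ℕ) : ℤ) - 52) = -(x + y + z) := by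
    push_cast
    linarith
  have hw : ((wt t.1.1 + wt t.2.1.1 + wt t.2.2.1 : ℕ) : ℤ) - 52 = 0 := by
    by_contra hne
    have h1 : 1 ≤ |((wt t.1.1 + wt t.2.1.1 + wt t.2.2.1 : ℕ) : ℤ) - 52| := Int.one_le_abs hne
    have h2 : |M * (((wt t.1.1 + wt t.2.1.1 + wt t.2.2.1 : ℕ) : ℤ) - 52)| ≤ 3 * H := by
      rw [e1, abs_neg, abs_le]
      constructor <;> linarith
    rw [abs_mul] at h2
    have h3 : |M| = M := abs_of_nonneg (by linarith)
    rw [h3] at h2
    nlinarith
  have hz : x + y + z = 0 := by
    rw [hw, mul_zero] at e1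
    linarith
  have hw' : wt t.1.1 + wt t.2.1.1 + wt t.2.2.1 = 52 := by omega
  refine ⟨?_, hz⟩
  unfold Pool.Agent.H557R2.Tri.Trans
  clear hz e1 hw hs' hs ht h hB hM hH ha1 ha2 hb1 hb2 hc1 hc2
  rcases ha3 with ⟨a1, a2⟩ | ⟨a1, a2⟩ | ⟨a1, a2⟩ <;>
    rcases hb3 with ⟨b1, b2⟩ | ⟨b1, b2⟩ | ⟨b1, b2⟩ <;>
    rcases hc3 with ⟨c1, c2⟩ | ⟨c1, c2⟩ | ⟨c1, c2⟩ <;>
    rw [a1, b1, c1] at hw' <;> simp [a2, b2, c2] at hw' ⊢

theorem bwd (h : Pr S q) (h1 : (sizes (S, q)).sum = bb (S, q) * BB (S, q))
    (h2 : BPk (sizes (S, q)) (bb (S, q)) (BB (S, q))) : X3C (S, q) := by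
  classical
  rw [h.x3c_iff]
  obtain ⟨f, hf, hs⟩ := h2
  set n := (sizes (S, q)).length with hn
  have hn9 : n = 9 * S.length := by rw [hn]; simp [sizes, EE_length]
  set a := sizes (S, q) with ha
  set B := BB (S, q) with hB
  set b := bb (S, q) with hb
  have hb3 : b = 3 * S.length := rfl
  -- the bins
  let bin : ℕ → Finset ℕ := fun j => (range n).filter (fun i => f i = j)
  have hsum : a.sum = ∑ i ∈ range n, a.getD i 0 := by
    rw [hn]
    clear_value a
    clear hs hf h1 ha hn hn9 bin n
    induction a with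
    | nil => simp
    | cons x l ih =>
      rw [List.sum_cons, List.length_cons, Finset.sum_range_succ', ih]
      simp [add_comm]
  have hmaps : ∀ i ∈ range n, f i ∈ range b := fun i hi => mem_range.2 (hf i (mem_range.1 hi))
  have htot : ∑ j ∈ range b, ∑ i ∈ bin j, a.getD i 0 = b * B := by
    rw [← h1, hsum]
    exact Finset.sum_fiberwise_of_maps_to hmaps _
  have hcard : ∑ j ∈ range b, (bin j).card = n := by
    have := Finset.card_eq_sum_card_fiberwise hmaps
    rw [card_range] at this
    exact this.symm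
  have hfull : ∀ j < b, ∑ i ∈ bin j, a.getD i 0 = B := by
    have h3 : ∑ j ∈ range b, ∑ i ∈ bin j, a.getD i 0 = ∑ j ∈ range b, B := by
      rw [htot, sum_const, card_range, smul_eq_mul]
    have h4 := (Finset.sum_eq_sum_iff_of_le (fun j hj => hs j (mem_range.1 hj))).1 h3
    exact fun j hj => h4 j (mem_range.2 hj)
  have hget : ∀ i < n, ∃ e ∈ EE S q, (EE S q).getD i (0, 0) = e ∧ a.getD i 0 = sz S.length q e := by
    intro i hi
    have hi' : i < (EE S q).length := by rw [EE_length, ← hn9]; exact hi
    refine ⟨(EE S q).getD i (0, 0), ?_, rfl, ?_⟩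
    · rw [List.getD_eq_getElem _ _ hi']; exact List.getElem_mem _
    · rw [ha]
      unfold sizes
      rw [List.getD_eq_getElem _ _ hi', List.getD_eq_getElem _ _ (by simpa using hi')]
      simp
  have hH := (HH_ge S.length q).2
  have hM := MM_int S.length q
  have hbig : ∀ i < n, (16 * (100 * HH S.length q + 100) : ℤ) ≤ (a.getD i 0 : ℕ) := by
    intro i hi
    obtain ⟨e, he, -, h4⟩ := hget i hi
    obtain ⟨h5, h6, h7, h8⟩ := sz_int h he
    rw [h4, h5, hM]
    have hw : (16 : ℤ) ≤ wt e.1 := by
      rcases h8 with h8 | h8 | h8 <;> rw [h8.1] <;> norm_num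
    nlinarith
  have hle3 : ∀ j < b, (bin j).card ≤ 3 := by
    intro j hj
    by_contra hcon
    push Not at hcon
    have h4 : ((∑ i ∈ bin j, a.getD i 0 : ℕ) : ℤ) = B := by rw [hfull j hj]
    push_cast at h4
    have h5 : ∑ i ∈ bin j, (16 * (100 * HH S.length q + 100) : ℤ) ≤
        ∑ i ∈ bin j, ((a.getD i 0 : ℕ) : ℤ) :=
      Finset.sum_le_sum fun i hi => hbig i (mem_range.1 (mem_filter.1 hi).1)
    rw [sum_const, nsmul_eq_mul, h4] at h5
    have h6 : (4 : ℤ) ≤ ((bin j).card : ℤ) := by exact_mod_cast hcon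
    have h7 := BB_int (S, q)
    dsimp only at h7
    rw [hM] at h7
    rw [← hB] at h7
    nlinarith
  have heq3 : ∀ j < b, (bin j).card = 3 := by
    have h3 : ∑ j ∈ range b, (bin j).card = ∑ j ∈ range b, 3 := by
      rw [hcard, sum_const, card_range, smul_eq_mul, hn9, hb3]
      ring
    have h4 := (Finset.sum_eq_sum_iff_of_le (fun j hj => hle3 j (mem_range.1 hj))).1 h3
    exact fun j hj => h4 j (mem_range.2 hj)
  -- lists
  let L : ℕ → List ℕ := fun j => (List.range n).filter (fun i => decide (f i = j))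
  have hL : ∀ j, (L j).toFinset = bin j := by
    intro j
    ext i
    simp [L, bin]
  have hLnd : ∀ j, (L j).Nodup := fun j => List.nodup_range.filter _
  have hL3 : ∀ j < b, (L j).length = 3 := by
    intro j hj
    rw [← List.toFinset_card_of_nodup (hLnd j), hL, heq3 j hj]
  let G : ℕ → Elt := fun i => (EE S q).getD i (0, 0)
  let T : ℕ → Elt × Elt × Elt := fun j => (G ((L j).getD 0 0), G ((L j).getD 1 0), G ((L j).getD 2 0))
  have hT : ∀ j < b, el (T j) = (L j).map G := by
    intro j hj
    obtain ⟨x, y, z, h3⟩ := three (hL3 j hj)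
    simp only [T, h3, el]
    simp
  have hmemE : ∀ j < b, ∀ e ∈ el (T j), e ∈ EE S q := by
    intro j hj e he
    rw [hT j hj, List.mem_map] at he
    obtain ⟨i, hi, rfl⟩ := he
    have hi' : i < n := by
      have := (List.mem_filter.1 hi).1
      simpa using this
    obtain ⟨e, he, h4, -⟩ := hget i hi'
    show (EE S q).getD i (0, 0) ∈ EE S q
    rw [h4]; exact he
  refine ⟨(List.range b).map T, ?_, ?_⟩
  · rw [List.flatMap_map]
    have h3 : (List.range b).flatMap (fun j => el (T j)) =
        (List.range b).flatMap (fun j => (L j).map G) := by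
      rw [List.flatMap_def, List.flatMap_def]
      congr 1
      exact List.map_congr_left fun j hj => hT j (by simpa using hj)
    rw [h3, ← List.map_flatMap]
    have h4 : ((List.range b).flatMap L).Perm (List.range n) := by
      rw [List.perm_ext_iff_of_nodup ?_ List.nodup_range]
      · intro i
        simp only [List.mem_flatMap, List.mem_range, L, List.mem_filter, decide_eq_true_eq]
        constructor
        · rintro ⟨j, hj, hi, -⟩
          exact hi
        · intro hi
          exact ⟨f i, hf i hi, hi, rfl⟩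
      · rw [List.nodup_flatMap]
        refine ⟨fun j _ => hLnd j, ?_⟩
        refine List.nodup_range.imp ?_
        intro j j' hne
        intro i hi hi'
        have e1 : f i = j := by simpa [L] using (List.mem_filter.1 hi).2
        have e2 : f i = j' := by simpa [L] using (List.mem_filter.1 hi').2
        exact hne (e1.symm.trans e2)
    have h5 : (List.range n).map G = EE S q := by
      have hlen : n = (EE S q).length := by rw [EE_length, hn9]
      apply List.ext_getElem
      · simp [hlen]
      · intro i hi hi'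
        simp only [List.getElem_map, List.getElem_range, G]
        rw [List.getD_eq_getElem _ _ hi']
    exact (h4.map G).trans (List.Perm.of_eq h5)
  · intro t ht
    obtain ⟨j, hj, rfl⟩ := List.mem_map.1 ht
    have hj' : j < b := by simpa using hj
    refine trans_of_sum h (hmemE j hj') ?_
    rw [hT j hj', List.map_map]
    have h3 := hfull j hj'
    rw [← hL, List.sum_toFinset _ (hLnd j)] at h3
    rw [← hB, ← h3]
    congr 1
    apply List.map_congr_left
    intro i hi
    have hi' : i < n := by
      have := (List.mem_filter.1 hi).1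
      simpa using this
    obtain ⟨e, he, h4, h5⟩ := hget i hi'
    show sz S.length q ((EE S q).getD i (0, 0)) = _
    rw [h4, h5]

theorem taskSRC : TaskSRC := by
  rintro ⟨S, q⟩ h
  constructor
  · intro hx
    exact fwd h hx
  · rintro ⟨h1, h2⟩
    exact bwd h h1 h2

end Pool.Agent.H614R3.SRC
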